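import Mathlib

/-!
# Mixing of order three and recurrence: definitions
-/

set_option autoImplicit false

open MeasureTheory Filter Set Metric
open scoped Topology

universe v

noncomputable section

namespace Pool.Agent.N813.EM

/-- `B` has finite box dimension: for `s ≤ 1` it is covered by `C s^(-D)` balls of radius `s`. -/
def FinDim (B : Type v) [MetricSpace B] : Prop :=
  ∃ (C : ℝ) (D : ℕ), ∀ s : ℝ, 0 < s → s ≤ 1 →
    ∃ t : Finset B, (t.card : ℝ) ≤ C * (1 / s) ^ D ∧ ∀ b, ∃ c ∈ t, dist b c ≤ s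

/-- The Frostman condition: `μ(B(b, s)) ≤ C s^δ` for all balls, for some `δ > 0`. -/
def Frost {B : Type v} [MetricSpace B] [MeasurableSpace B] (μ : Measure B) : Prop :=
  ∃ C δ : ℝ, 0 < δ ∧ ∀ (b : B) (s : ℝ), 0 < s → μ.real (closedBall b s) ≤ C * s ^ δ

/-- `u` is Lipschitz with constant `L`, with values in `[0, 1]`. -/
def Obs {B : Type v} [MetricSpace B] (L : ℝ) (u : B → ℝ) : Prop :=
  (∀ x, 0 ≤ u x ∧ u x ≤ 1) ∧ ∀ x y, |u x - u y| ≤ L * dist x y

/-- Mixing of order two with the rate `exp(-κ m^β)`. -/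
def M2 {B : Type v} [MetricSpace B] [MeasurableSpace B] (g : B → B) (μ : Measure B)
    (C κ β : ℝ) (q : ℕ) : Prop :=
  ∀ (L : ℝ) (u w : B → ℝ), 1 ≤ L → Obs L u → Obs L w → ∀ m : ℕ,
    |∫ x, u x * w (g^[m] x) ∂μ - (∫ x, u x ∂μ) * ∫ x, w x ∂μ| ≤
      C * L ^ q * Real.exp (-(κ * (m : ℝ) ^ β))

/-- Mixing of order three with the rate `exp(-κ m^β)`: for Lipschitz functions `u, v, w` with values
in `[0, 1]` and Lipschitz constant `L ≥ 1`,
`|∫ u · v∘g^i · w∘g^(i+j) - ∫u ∫v ∫w| ≤ C L^q exp(-κ min(i, j)^β)`. -/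
def M3 {B : Type v} [MetricSpace B] [MeasurableSpace B] (g : B → B) (μ : Measure B)
    (C κ β : ℝ) (q : ℕ) : Prop :=
  ∀ (L : ℝ) (u v w : B → ℝ), 1 ≤ L → Obs L u → Obs L v → Obs L w → ∀ i j : ℕ,
    |∫ x, u x * v (g^[i] x) * w (g^[i + j] x) ∂μ -
      (∫ x, u x ∂μ) * (∫ x, v x ∂μ) * ∫ x, w x ∂μ| ≤
      C * L ^ q * Real.exp (-(κ * ((min i j : ℕ) : ℝ) ^ β))

/-- Stretched exponential mixing of order three (`β = 1`: exponential mixing of order three). -/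
def ExpMix {B : Type v} [MetricSpace B] [MeasurableSpace B] (g : B → B) (μ : Measure B) : Prop :=
  ∃ (C κ β : ℝ) (q : ℕ), 0 < κ ∧ 0 < β ∧ β ≤ 1 ∧ M3 g μ C κ β q

/-- `g` is bi-Lipschitz. -/
def BiLip {B : Type v} [MetricSpace B] (g : B → B) : Prop :=
  ∃ Λ : ℝ, ∀ x y, dist (g x) (g y) ≤ Λ * dist x y ∧ dist x y ≤ Λ * dist (g x) (g y)

/-- Polynomially close returns near `b`: for all `A` there are points `b'` near `b` whose orbits
return to distance `ρ^A` at a (late) time `m`, without having returned to distance `ρ` before. -/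
def PolyClose {B : Type v} [MetricSpace B] (g : B → B) (b : B) : Prop :=
  ∀ (A : ℕ) (η : ℝ), 0 < η → ∀ M : ℕ, ∃ (m : ℕ) (b' : B) (ρ : ℝ), M ≤ m ∧ dist b' b < η ∧
    0 < ρ ∧ ρ < η ∧ dist (g^[m] b') b' ≤ ρ ^ A ∧ ∀ i, 0 < i → i < m → ρ ≤ dist (g^[i] b') b'

/-- The measure of the set of the points which return to distance `s` at the time `m`. -/
def ret {B : Type v} [MetricSpace B] [MeasurableSpace B] (g : B → B) (μ : Measure B) (m : ℕ)
    (s : ℝ) : ℝ :=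
  μ.real {x | dist (g^[m] x) x ≤ s}

/-- The cone function: `1` on the ball of radius `(R - 1) s` about `c`, `0` outside the ball of
radius `R s`. -/
def cone {B : Type v} [MetricSpace B] (c : B) (s R : ℝ) (x : B) : ℝ :=
  max 0 (min 1 (R - dist x c / s))

/-- Partitions of unity at the scale `s`. -/
def Net (B : Type v) [MetricSpace B] (C : ℝ) (D : ℕ) (s : ℝ) (t : Finset B) (φ : B → B → ℝ) : Prop :=
  (t.card : ℝ) ≤ C * (1 / s) ^ D ∧ (∀ c ∈ t, Obs (C * (1 / s) ^ (D + 1)) (φ c)) ∧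
    (∀ x, ∑ c ∈ t, φ c x = 1) ∧ ∀ c ∈ t, ∀ x, φ c x ≠ 0 → dist x c < 2 * s

end Pool.Agent.N813.EM
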