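import Pool.Agent.N813.CL.DefsF
import Pool.Agent.N813.EM.Defs
import Pool.Agent.Y368.CL.Met

/-!
# Diffeomorphisms with a mixing invariant measure: definitions

`V d = ℝ^d`, `DiffM n N r = Diff^r(N)` and `strongTop n N r` is its strong (Whitney) `C^r` topology
(`Pool/Agent/H718R2/G0.lean`), `GoodChart n N χ z`: `χ` is a chart of the smooth structure of `N` with
`χ z = 0`, the target of which contains the closed unit ball (`Pool/Agent/W564/SC/Defs.lean`), `ExpAct`,
`Inv`, `Quot`, `Approx`: `Pool/Agent/N813/CL/DefsF.lean`, `FinDim`, `Frost`, `BiLip`, `ExpMix`: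
`Pool/Agent/N813/EM/Defs.lean`, `ChartLip n N`: the distance of `N` is compatible with the smooth
structure, every good chart is bi-Lipschitz on the ball `‖χ ·‖ ≤ 1/2` (`Pool/Agent/Y368/CL/Met.lean`).
-/

set_option autoImplicit false

open scoped Manifold ContDiff Topology
open MeasureTheory Filter Set Metric

universe u v

namespace Pool.Agent.N813.EM

open Pool.Agent.H718R2.G Pool.Agent.W564.SC Pool.Agent.N813.CL.F Pool.Agent.Y368.CL

/-- `π` is Hölder continuous on the part of `K` near the centre of the chart `χ`. -/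
def HolUp {n : ℕ} {N : Type u} [TopologicalSpace N] (χ : OpenPartialHomeomorph N (V n)) (K : Set N)
    {B : Type v} [MetricSpace B] (π : N → B) : Prop :=
  ∃ C θ δ : ℝ, 0 < θ ∧ 0 < δ ∧ ∀ p ∈ K, ∀ q ∈ K, p ∈ χ.source → q ∈ χ.source → ‖χ p‖ < δ →
    ‖χ q‖ < δ → dist (π p) (π q) ≤ C * ‖χ p - χ q‖ ^ θ

/-- The inverse of `π` (modulo the group of the `R_X`) is Hölder continuous near the centre of `χ`: if
`π y` is close to `π y'`, then some `R_X y`, `‖X‖ ≤ c`, is Hölder close to `y'`. -/
def HolLow {k n : ℕ} {N : Type u} [TopologicalSpace N] (χ : OpenPartialHomeomorph N (V n))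
    (R : V k → N → N) (K : Set N) {B : Type v} [MetricSpace B] (π : N → B) : Prop :=
  ∃ C θ δ c : ℝ, 0 < θ ∧ 0 < δ ∧ ∀ y ∈ K, ∀ y' ∈ K, y' ∈ χ.source → ‖χ y'‖ < δ →
    dist (π y) (π y') < δ →
    ∃ X, nm X ≤ c ∧ R X y ∈ χ.source ∧ ‖χ (R X y) - χ y'‖ ≤ C * dist (π y) (π y') ^ θ

/-- `μ` is a Borel probability measure, invariant under `g`, which satisfies the Frostman condition
and is mixing of order three (at least with a stretched exponential rate), and `b` lies in the support
of `μ`. No hyperbolicity and no smoothness is assumed. -/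
def MixMeas {B : Type v} [MetricSpace B] [MeasurableSpace B] (g : B → B) (μ : Measure B) (b : B) :
    Prop :=
  IsProbabilityMeasure μ ∧ MeasurePreserving g μ μ ∧ Frost μ ∧ ExpMix g μ ∧
    ∀ η : ℝ, 0 < η → 0 < μ (ball b η)

/-- `z` lies in a closed invariant set `K` of `F` on which `F` is a compact connected group extension
of a bi-Lipschitz homeomorphism `g` of `B = π(K)`, which has an invariant measure `μ` with
`MixMeas g μ (π z)`; the metric of `B` is finite dimensional and Hölder comparable with the smooth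
structure of `N` near `z`. -/
def MixHyp (k n : ℕ) (N : Type u) [TopologicalSpace N] [ChartedSpace (V n) N] (F : N → N)
    (z : N) : Prop :=
  ∃ (R : V k → N → N) (K : Set N) (B : Type v) (_ : MetricSpace B) (_ : CompactSpace B)
    (_ : MeasurableSpace B) (_ : BorelSpace B) (g : B ≃ₜ B) (μ : Measure B) (π : N → B)
    (χ : OpenPartialHomeomorph N (V n)), ExpAct k n N R ∧ Inv F R K ∧ Quot R K π ∧
      (∀ y ∈ K, π (F y) = g (π y)) ∧ z ∈ K ∧ GoodChart n N χ z ∧ HolUp χ K π ∧ HolLow χ R K π ∧
      FinDim B ∧ BiLip g ∧ MixMeas g μ (π z)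

/-- `z` lies in the support of a measure on `N` itself with `MixMeas F μ z` (for a distance of `N`
which is compatible with the smooth structure), or `MixHyp k n N F z` for some `k`. -/
def MixPt (n : ℕ) (N : Type u) [MetricSpace N] [MeasurableSpace N] [ChartedSpace (V n) N]
    (F : N → N) (z : N) : Prop :=
  (ChartLip n N ∧ ∃ μ : Measure N, MixMeas F μ z) ∨ ∃ k, MixHyp.{u, v} k n N F z

/-- Arbitrarily `C^r`-close to `F` there are diffeomorphisms `F'` (for example `F' = F`) with
`MixPt n N F' z`. -/
def MixLim (n : ℕ) (N : Type u) [MetricSpace N] [MeasurableSpace N] [ChartedSpace (V n) N]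
    (r : ℕ∞) (F : DiffM n N r) (z : N) : Prop :=
  Approx n N r F fun F' => MixPt.{u, v} n N F' z

end Pool.Agent.N813.EM
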