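import Pool.Agent.N813.EM.Stm

/-!
# Choice of the scales (helper55, project EM)
-/

set_option autoImplicit false

open MeasureTheory Filter Set Metric
open scoped Topology

noncomputable section

namespace Pool.Agent.N813.EM.ASY

theorem t : S_ASY := by
  intro κ β lam δ ε E q N₀ hκ hβ hβ1 hlam hδ hε hE
  -- the constant `c`
  obtain ⟨c, hc0, hc1, hc2⟩ : ∃ c : ℝ, 0 < c ∧ c ^ β ≤ 1 / 2 ∧ q * lam * c ≤ κ / 2 := by
    refine ⟨min ((1 / 2 : ℝ) ^ (1 / β)) (κ / (2 * (q * lam + 1))), ?_, ?_, ?_⟩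
    · apply lt_min
      · positivity
      · positivity
    · have h1 : min ((1 / 2 : ℝ) ^ (1 / β)) (κ / (2 * (q * lam + 1))) ≤ (1 / 2 : ℝ) ^ (1 / β) :=
        min_le_left _ _
      refine (Real.rpow_le_rpow (le_min (by positivity) (by positivity)) h1 hβ.le).trans ?_
      rw [← Real.rpow_mul (by norm_num), one_div_mul_cancel hβ.ne', Real.rpow_one]
    · have h1 : min ((1 / 2 : ℝ) ^ (1 / β)) (κ / (2 * (q * lam + 1))) ≤
        κ / (2 * (q * lam + 1)) := min_le_right _ _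
      have h0 : 0 ≤ (q : ℝ) * lam := by positivity
      refine (mul_le_mul_of_nonneg_left h1 h0).trans ?_
      rw [mul_div_assoc', div_le_div_iff₀ (by positivity) (by norm_num)]
      nlinarith
  obtain ⟨a, ha⟩ : ∃ a : ℝ, a = κ * c ^ β / E := ⟨_, rfl⟩
  have ha0 : 0 < a := by rw [ha]; positivity
  have hEa : E * a = κ * c ^ β := by rw [ha]; field_simp
  have hbb : 0 < β * β := by positivity
  -- limits
  have t1 : Tendsto (fun n : ℕ => ((n : ℝ)) ^ (β * β)) atTop atTop :=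
    (tendsto_rpow_atTop hbb).comp tendsto_natCast_atTop_atTop
  have t2 : Tendsto (fun n : ℕ => Real.exp (a * (n : ℝ) ^ (β * β))) atTop atTop :=
    Real.tendsto_exp_atTop.comp (t1.const_mul_atTop ha0)
  have t3 : Tendsto (fun n : ℕ => ((n : ℝ) ^ (β * β)) ^ (1 / (β * β)) *
      Real.exp (-(a * δ) * (n : ℝ) ^ (β * β))) atTop (𝓝 0) :=
    (tendsto_rpow_mul_exp_neg_mul_atTop_nhds_zero (1 / (β * β)) (a * δ) (by positivity)).comp t1
  have e1 := t2.eventually (eventually_ge_atTop (1 / ε))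
  have e2 := t3.eventually (eventually_le_nhds (show (0 : ℝ) < ε / 2 by positivity))
  obtain ⟨n, ⟨hn1, hn2⟩, hn3⟩ := ((e1.and e2).and (eventually_ge_atTop (max N₀ 1))).exists
  have hnN : N₀ ≤ n := (le_max_left _ _).trans hn3
  have hn0 : 1 ≤ n := (le_max_right _ _).trans hn3
  have hn0' : (1 : ℝ) ≤ n := by exact_mod_cast hn0
  have hnn : (0 : ℝ) ≤ n := by linarith
  set X : ℝ := Real.exp (a * (n : ℝ) ^ (β * β)) with hX
  have hlog : Real.log X = a * (n : ℝ) ^ (β * β) := Real.log_exp _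
  have hpow0 : 0 ≤ (n : ℝ) ^ (β * β) := by positivity
  -- the number `y`
  have hy0 : 0 ≤ c * (n : ℝ) ^ β := by positivity
  have hyb : κ * (c * (n : ℝ) ^ β) ^ β = E * Real.log X := by
    rw [Real.mul_rpow hc0.le (by positivity), ← Real.rpow_mul hnn, hlog, ← mul_assoc, ← mul_assoc,
      hEa]
  refine ⟨n, ⌊c * (n : ℝ) ^ β⌋₊, X, hnN, hn1, ?_, ?_, ?_, ?_, ?_⟩
  · exact Real.one_le_exp (by positivity)
  · have h1 : X ^ δ = Real.exp (a * δ * (n : ℝ) ^ (β * β)) := by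
      rw [hX, ← Real.exp_mul]
      congr 1
      ring
    have h2 : ((n : ℝ) ^ (β * β)) ^ (1 / (β * β)) = n := by
      rw [← Real.rpow_mul hnn, mul_one_div_cancel hbb.ne', Real.rpow_one]
    rw [h2] at hn2
    rw [h1, div_eq_mul_inv, ← Real.exp_neg]
    have h3 : (n : ℝ) * Real.exp (-(a * δ * (n : ℝ) ^ (β * β))) ≤ ε / 2 := by
      refine le_trans (le_of_eq ?_) hn2
      congr 2
      ring
    have h4 : 0 < Real.exp (-(a * δ * (n : ℝ) ^ (β * β))) := Real.exp_pos _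
    nlinarith
  · rw [← hyb]
    apply mul_le_mul_of_nonneg_left _ hκ.le
    exact Real.rpow_le_rpow (Nat.cast_nonneg _) (Nat.floor_le hy0) hβ.le
  · rw [← hyb]
    apply mul_le_mul_of_nonneg_left _ hκ.le
    exact Real.rpow_le_rpow hy0 (Nat.lt_floor_add_one _).le hβ.le
  · have h1 : (⌊c * (n : ℝ) ^ β⌋₊ : ℝ) ≤ c * (n : ℝ) ^ β := Nat.floor_le hy0
    have h2 : (q : ℝ) * lam * (⌊c * (n : ℝ) ^ β⌋₊ : ℝ) ≤ q * lam * (c * (n : ℝ) ^ β) :=
      mul_le_mul_of_nonneg_left h1 (by positivity)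
    have h3 : (q : ℝ) * lam * (c * (n : ℝ) ^ β) ≤ κ / 2 * (n : ℝ) ^ β := by
      rw [← mul_assoc]
      exact mul_le_mul_of_nonneg_right hc2 (by positivity)
    have h4 : (n : ℝ) ^ (β * β) ≤ (n : ℝ) ^ β :=
      Real.rpow_le_rpow_of_exponent_le hn0' (by nlinarith)
    have h5 : E * Real.log X ≤ κ / 2 * (n : ℝ) ^ β := by
      rw [hlog, ← mul_assoc, hEa]
      have h6 : κ * c ^ β ≤ κ / 2 := by nlinarith
      exact mul_le_mul h6 h4 hpow0 (by positivity)
    linarith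

end Pool.Agent.N813.EM.ASY
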