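import Pool.Agent.N813.EM.Stm2
import Pool.Agent.W699.SC.GC

/-!
# Project EM2, part BIL: `C¹` maps of closed manifolds are Lipschitz
-/

set_option autoImplicit false
set_option linter.all false

open scoped Manifold ContDiff Topology NNReal
open Filter Set Metric

universe u

namespace Pool.Agent.N813.EM.BIL

open Pool.Agent.H718R2.G Pool.Agent.W564.SC Pool.Agent.Y368.CL Pool.Agent.N813.EM

theorem loc {n : ℕ} {N : Type u} [MetricSpace N] [ChartedSpace (V n) N] [IsManifold (𝓡 n) ∞ N]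
    {F : N → N} (hF : ContMDiff (𝓡 n) (𝓡 n) 1 F) (hCL : ChartLip n N) : LocallyLipschitz F := by
  intro x
  obtain ⟨χ₁, h₁⟩ := Pool.Agent.W699.SC.gc n N x
  obtain ⟨χ₂, h₂⟩ := Pool.Agent.W699.SC.gc n N (F x)
  obtain ⟨L1, hL1, b1⟩ := hCL χ₁ x h₁
  obtain ⟨L2, hL2, b2⟩ := hCL χ₂ (F x) h₂
  have hx0 : (0 : V n) ∈ χ₁.target := h₁.ball (mem_closedBall_self (by norm_num))
  have hs0 : χ₁.symm 0 = x := by rw [← h₁.zero, χ₁.left_inv h₁.src]
  have hFx : F (χ₁.symm 0) ∈ χ₂.source := by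
    rw [hs0]
    exact h₂.src
  have hcd : ContDiffAt ℝ 1 (χ₂ ∘ F ∘ χ₁.symm) 0 := by
    rw [← contMDiffAt_iff_contDiffAt]
    have m1 : ContMDiffAt (𝓡 n) (𝓡 n) 1 χ₁.symm 0 :=
      ((contMDiffOn_symm_of_mem_maximalAtlas h₁.mem).contMDiffAt
        (χ₁.open_target.mem_nhds hx0)).of_le (by norm_cast)
    have m2 : ContMDiffAt (𝓡 n) (𝓡 n) 1 F (χ₁.symm 0) := hF.contMDiffAt
    have m3 : ContMDiffAt (𝓡 n) (𝓡 n) 1 χ₂ (F (χ₁.symm 0)) :=
      ((contMDiffOn_of_mem_maximalAtlas h₂.mem).contMDiffAt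
        (χ₂.open_source.mem_nhds hFx)).of_le (by norm_cast)
    exact m3.comp 0 (m2.comp 0 m1)
  obtain ⟨K, s, hs, hK⟩ := hcd.exists_lipschitzOnWith
  have hFc : Tendsto F (𝓝 x) (𝓝 (F x)) := hF.continuous.tendsto x
  have c1 : Tendsto χ₁ (𝓝 x) (𝓝 0) := by
    have := χ₁.continuousAt h₁.src
    rwa [ContinuousAt, h₁.zero] at this
  have c2 : Tendsto (fun y => χ₂ (F y)) (𝓝 x) (𝓝 0) := by
    have := χ₂.continuousAt h₂.src
    rw [ContinuousAt, h₂.zero] at this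
    exact this.comp hFc
  have e1 : ∀ᶠ y in 𝓝 x, y ∈ χ₁.source := χ₁.open_source.mem_nhds h₁.src
  have e2 : ∀ᶠ y in 𝓝 x, χ₁ y ∈ s := c1 hs
  have e3 : ∀ᶠ y in 𝓝 x, ‖χ₁ y‖ < 1 / 2 := by
    have h := c1.norm
    rw [norm_zero] at h
    exact h.eventually_lt_const (by norm_num)
  have e4 : ∀ᶠ y in 𝓝 x, F y ∈ χ₂.source := hFc (χ₂.open_source.mem_nhds h₂.src)
  have e5 : ∀ᶠ y in 𝓝 x, ‖χ₂ (F y)‖ < 1 / 2 := by
    have h := c2.norm
    rw [norm_zero] at h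
    exact h.eventually_lt_const (by norm_num)
  refine ⟨⟨L2 * K * L1, by positivity⟩, _, e1.and (e2.and (e3.and (e4.and e5))), ?_⟩
  apply LipschitzOnWith.of_dist_le_mul
  rintro y ⟨y1, y2, y3, y4, y5⟩ z ⟨z1, z2, z3, z4, z5⟩
  have g1 := (b2 _ y4 _ z4 y5.le z5.le).1
  have g2 := (b1 _ y1 _ z1 y3.le z3.le).2
  have g3 := hK.dist_le_mul _ y2 _ z2
  simp only [Function.comp_apply] at g3
  rw [χ₁.left_inv y1, χ₁.left_inv z1, dist_eq_norm, dist_eq_norm] at g3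
  calc dist (F y) (F z) ≤ L2 * ‖χ₂ (F y) - χ₂ (F z)‖ := g1
    _ ≤ L2 * (K * ‖χ₁ y - χ₁ z‖) := mul_le_mul_of_nonneg_left g3 hL2.le
    _ ≤ L2 * (K * (L1 * dist y z)) :=
        mul_le_mul_of_nonneg_left (mul_le_mul_of_nonneg_left g2 K.2) hL2.le
    _ = L2 * K * L1 * dist y z := by ring

theorem t : S_BIL.{u} := by
  intro n N _ _ _ _ F hF hCL
  obtain ⟨K, hK⟩ := LocallyLipschitzOn.exists_lipschitzOnWith_of_compact isCompact_univ
    ((loc hF hCL).locallyLipschitzOn (s := univ))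
  exact ⟨K, fun x y => hK.dist_le_mul x (mem_univ x) y (mem_univ y)⟩

end Pool.Agent.N813.EM.BIL
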