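import Pool.Agent.N813.EM.Stm

/-!
# Project EM, part CELL: choice of the cell
-/

set_option autoImplicit false

open MeasureTheory Filter Set Metric
open scoped Topology

universe v

noncomputable section

namespace Pool.Agent.N813.EM.CELL

variable {B : Type v} [MetricSpace B] [MeasurableSpace B] [BorelSpace B] {μ : Measure B}
  [IsProbabilityMeasure μ]

theorem integrable_aux {L : ℝ} {u : B → ℝ} (hu : Obs L u) {s : ℝ} (hs : 0 < s) (c : B) {h : B → B}
    (hh : Continuous h) : Integrable (fun x => u x * cone c s 3 (h x)) μ := by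
  have hc : Continuous fun x => u x * cone c s 3 (h x) :=
    hu.continuous.mul ((obs_cone c hs 3).continuous.comp hh)
  refine Integrable.of_bound hc.aestronglyMeasurable 1 (Eventually.of_forall fun x => ?_)
  rw [Real.norm_eq_abs, abs_of_nonneg (mul_nonneg (hu.1 x).1 (cone_nonneg _ _ _ _))]
  exact mul_le_one₀ (hu.1 x).2 (cone_nonneg _ _ _ _) (cone_le_one _ _ _ _)

theorem sum_le_ret {C : ℝ} {D : ℕ} {σ ρ : ℝ} {t : Finset B} {φ : B → B → ℝ} (hρ : 0 < ρ)
    (hσρ : 2 * σ ≤ ρ) (hNet : Net B C D σ t φ) {h : B → B} (hh : Continuous h) :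
    ∑ c ∈ t, ∫ x, φ c x * cone c ρ 3 (h x) ∂μ ≤ μ.real {x | dist (h x) x ≤ 4 * ρ} := by
  obtain ⟨_, hObs, hsum, hsupp⟩ := hNet
  have hcl : IsClosed {x | dist (h x) x ≤ 4 * ρ} :=
    isClosed_le (hh.dist continuous_id) continuous_const
  rw [← integral_finsetSum t fun c hc => integrable_aux (hObs c hc) hρ c hh]
  have h1 : ∫ x, ∑ c ∈ t, φ c x * cone c ρ 3 (h x) ∂μ ≤
      ∫ x, ({x | dist (h x) x ≤ 4 * ρ} : Set B).indicator (fun _ => (1 : ℝ)) x ∂μ := by
    apply integral_mono
    · exact integrable_finsetSum t fun c hc => integrable_aux (hObs c hc) hρ c hh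
    · exact (integrable_const _).indicator hcl.measurableSet
    · intro x
      by_cases hx : x ∈ {x | dist (h x) x ≤ 4 * ρ}
      · rw [indicator_of_mem hx]
        show ∑ c ∈ t, φ c x * cone c ρ 3 (h x) ≤ 1
        rw [← hsum x]
        refine Finset.sum_le_sum fun c hc => ?_
        exact mul_le_of_le_one_right ((hObs c hc).1 x).1 (cone_le_one _ _ _ _)
      · rw [indicator_of_notMem hx]
        show ∑ c ∈ t, φ c x * cone c ρ 3 (h x) ≤ 0
        refine le_of_eq (Finset.sum_eq_zero fun c hc => ?_)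
        by_contra hne
        have h2 : φ c x ≠ 0 := left_ne_zero_of_mul hne
        have h3 : cone c ρ 3 (h x) ≠ 0 := right_ne_zero_of_mul hne
        have h4 := hsupp c hc x h2
        have h5 := cone_ne_zero hρ h3
        have h6 := dist_triangle_right (h x) x c
        apply hx
        show dist (h x) x ≤ 4 * ρ
        linarith
  rwa [integral_indicator_const _ hcl.measurableSet, smul_eq_mul, mul_one] at h1

theorem t : S_CELL.{v} := by
  intro B _ _ _ μ _ g g' hg hg' hinv hμ C D σ ρ t φ hC hσ hρ hσρ hNet b η m₀ G hm₀ hm hret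
  have hNet' := hNet
  obtain ⟨hcard, hObs, hsum, hsupp⟩ := hNet
  have hNpos : 0 < C * (1 / σ) ^ D := by positivity
  set N : ℝ := C * (1 / σ) ^ D with hN
  classical
  set T : Finset B := t.filter fun c => dist c b < η + 2 * σ with hT
  have hTt : T ⊆ t := Finset.filter_subset _ _
  -- the total mass of the cells near `b`
  have h1 : m₀ ≤ ∑ c ∈ T, ∫ x, φ c x ∂μ := by
    refine hm.trans ?_
    rw [← integral_finsetSum T fun c hc => (hObs c (hTt hc)).integrable]
    have h2 : ∫ x, (ball b η).indicator (fun _ => (1 : ℝ)) x ∂μ ≤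
        ∫ x, ∑ c ∈ T, φ c x ∂μ := by
      apply integral_mono
      · exact (integrable_const _).indicator isOpen_ball.measurableSet
      · exact integrable_finsetSum T fun c hc => (hObs c (hTt hc)).integrable
      · intro x
        by_cases hx : x ∈ ball b η
        · rw [indicator_of_mem hx]
          show 1 ≤ ∑ c ∈ T, φ c x
          rw [← hsum x, hT, Finset.sum_filter]
          refine Finset.sum_le_sum fun c hc => ?_
          split_ifs with h3
          · exact le_rfl
          · refine le_of_eq ?_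
            by_contra h4
            have h5 := hsupp c hc x h4
            apply h3
            have h6 : dist x b < η := hx
            have h7 := dist_triangle_left c b x
            linarith
        · rw [indicator_of_notMem hx]
          exact Finset.sum_nonneg fun c hc => ((hObs c (hTt hc)).1 x).1
    rwa [integral_indicator_const _ isOpen_ball.measurableSet, smul_eq_mul, mul_one] at h2
  -- the total measure of the early returns
  set P : B → ℝ := fun c => ∑ i ∈ Finset.Icc 1 G, (∫ x, φ c x * cone c ρ 3 (g^[i] x) ∂μ +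
          ∫ x, φ c x * cone c ρ 3 (g'^[i] x) ∂μ) with hP
  have hP0 : ∀ c ∈ t, 0 ≤ P c := by
    intro c hc
    refine Finset.sum_nonneg fun i _ => add_nonneg ?_ ?_
    · exact integral_nonneg fun x => mul_nonneg ((hObs c hc).1 x).1 (cone_nonneg _ _ _ _)
    · exact integral_nonneg fun x => mul_nonneg ((hObs c hc).1 x).1 (cone_nonneg _ _ _ _)
  have h2 : ∑ c ∈ t, P c ≤ m₀ / 16 := by
    rw [hP, Finset.sum_comm]
    have h3 : ∀ i ∈ Finset.Icc 1 G, ∑ c ∈ t, (∫ x, φ c x * cone c ρ 3 (g^[i] x) ∂μ +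
          ∫ x, φ c x * cone c ρ 3 (g'^[i] x) ∂μ) ≤ 2 * ret g μ i (4 * ρ) := by
      intro i _
      rw [Finset.sum_add_distrib]
      have h4 := sum_le_ret (μ := μ) hρ hσρ hNet' (hg.iterate i)
      have h5 := sum_le_ret (μ := μ) hρ hσρ hNet' (hg'.iterate i)
      rw [ret_inv hinv hg' hμ] at h5
      have h6 : μ.real {x | dist (g^[i] x) x ≤ 4 * ρ} = ret g μ i (4 * ρ) := rfl
      rw [h6] at h4
      linarith
    refine (Finset.sum_le_sum h3).trans ?_
    rw [← Finset.mul_sum]
    linarith
  -- the choice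
  by_contra hcon
  push Not at hcon
  have h3 : ∀ c ∈ T, ∫ x, φ c x ∂μ ≤ 8 * P c + m₀ / (4 * N) := by
    intro c hc
    rw [hT, Finset.mem_filter] at hc
    have h4 := hcon c hc.1 hc.2
    have h5 := hP0 c hc.1
    by_contra h6
    push Not at h6
    have h7 : m₀ / (4 * N) ≤ ∫ x, φ c x ∂μ := by linarith
    have h8 := h4 h7
    have h9 : 0 < m₀ / (4 * N) := by positivity
    have h10 : (∫ x, φ c x ∂μ) / 8 < P c := h8
    linarith
  have h4 : ∑ c ∈ T, ∫ x, φ c x ∂μ ≤ 8 * ∑ c ∈ T, P c + (T.card : ℝ) * (m₀ / (4 * N)) := by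
    refine (Finset.sum_le_sum h3).trans (le_of_eq ?_)
    rw [Finset.sum_add_distrib, ← Finset.mul_sum, Finset.sum_const, nsmul_eq_mul]
  have h5 : ∑ c ∈ T, P c ≤ ∑ c ∈ t, P c :=
    Finset.sum_le_sum_of_subset_of_nonneg hTt fun c hc _ => hP0 c hc
  have h6 : (T.card : ℝ) ≤ N := by
    refine le_trans ?_ hcard
    exact_mod_cast Finset.card_le_card hTt
  have h7 : (T.card : ℝ) * (m₀ / (4 * N)) ≤ m₀ / 4 := by
    have h8 : (T.card : ℝ) * (m₀ / (4 * N)) ≤ N * (m₀ / (4 * N)) :=
      mul_le_mul_of_nonneg_right h6 (by positivity)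
    have h9 : N * (m₀ / (4 * N)) = m₀ / 4 := by
      field_simp
    linarith
  linarith

end Pool.Agent.N813.EM.CELL
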