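import Pool.Agent.N813.EM.Defs
import Pool.Agent.Y368.CL.Met

/-!
# Project EM2: statements of the parts on compatible distances
-/

set_option autoImplicit false

open scoped Manifold ContDiff Topology
open Filter Set Metric

universe u

namespace Pool.Agent.N813.EM

open Pool.Agent.H718R2.G Pool.Agent.W564.SC Pool.Agent.Y368.CL

/-- FIN: closed manifolds have finite box dimension. -/
def S_FIN : Prop :=
  ∀ (n : ℕ) (N : Type u) [MetricSpace N] [CompactSpace N] [ChartedSpace (V n) N]
    [IsManifold (𝓡 n) ∞ N], ChartLip n N → FinDim N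

/-- BIL: `C¹` maps are Lipschitz. -/
def S_BIL : Prop :=
  ∀ (n : ℕ) (N : Type u) [MetricSpace N] [CompactSpace N] [ChartedSpace (V n) N]
    [IsManifold (𝓡 n) ∞ N] (F : N → N), ContMDiff (𝓡 n) (𝓡 n) 1 F → ChartLip n N →
    ∃ Λ : ℝ, ∀ x y, dist (F x) (F y) ≤ Λ * dist x y

end Pool.Agent.N813.EM
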