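import Pool.Agent.N813.EM.DefsF
import Pool.Agent.N813.EM.Stm2

/-!
# Mixing measures on closed manifolds with a compatible distance
-/

set_option autoImplicit false

open scoped Manifold ContDiff Topology
open MeasureTheory Filter Set Metric

universe u v

namespace Pool.Agent.N813.EM

open Pool.Agent.H718R2.G Pool.Agent.W564.SC Pool.Agent.N813.CL.F Pool.Agent.Y368.CL

theorem bilip (hBIL : S_BIL.{u}) {n : ℕ} {N : Type u} [MetricSpace N] [CompactSpace N]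
    [ChartedSpace (V n) N] [IsManifold (𝓡 n) ∞ N] (hN : ChartLip n N) {r : ℕ∞} (hr : 1 ≤ r)
    (F : DiffM n N r) : BiLip F := by
  have hr' : (1 : WithTop ℕ∞) ≤ (r : WithTop ℕ∞) := by exact_mod_cast hr
  obtain ⟨Λ, hΛ⟩ := hBIL n N F (F.contMDiff.of_le hr') hN
  obtain ⟨Λ', hΛ'⟩ := hBIL n N F.symm (F.symm.contMDiff.of_le hr') hN
  refine ⟨max Λ Λ', fun x y => ⟨(hΛ x y).trans
    (mul_le_mul_of_nonneg_right (le_max_left _ _) dist_nonneg), ?_⟩⟩
  have h1 := hΛ' (F x) (F y)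
  rw [F.symm_apply_apply, F.symm_apply_apply] at h1
  exact h1.trans (mul_le_mul_of_nonneg_right (le_max_right _ _) dist_nonneg)

theorem mixHyp (hFIN : S_FIN.{u}) (hBIL : S_BIL.{u}) {n : ℕ} {N : Type u} [MetricSpace N]
    [CompactSpace N] [MeasurableSpace N] [BorelSpace N]
    [ChartedSpace (V n) N] [IsManifold (𝓡 n) ∞ N] (hN : ChartLip n N) {r : ℕ∞} (hr : 1 ≤ r)
    (F : DiffM n N r) {z : N} {μ : Measure N} (h : MixMeas F μ z) : MixHyp.{u, u} 0 n N F z := by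
  obtain ⟨χ, hχ⟩ := Pool.Agent.W699.SC.gc n N z
  obtain ⟨L, hL, hLip⟩ := hN χ z hχ
  obtain ⟨δ, hδ, hclose⟩ := unif_close hχ
  refine ⟨fun _ y => y, univ, N, inferInstance, inferInstance, inferInstance, inferInstance,
    F.toHomeomorph, μ, id, χ, ⟨?_, fun _ => rfl, fun _ _ _ _ => rfl⟩,
    ⟨isClosed_univ, fun y _ => ⟨mem_univ _, fun _ => ⟨mem_univ _, rfl⟩⟩⟩,
    ⟨continuousOn_id, fun b => ⟨b, mem_univ _, rfl⟩, fun _ _ _ => rfl, 0, ?_⟩, fun _ _ => rfl,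
    mem_univ _, hχ, ?_, ?_, hFIN n N hN, bilip hBIL hN hr F, h⟩
  · exact contMDiff_snd
  · intro y _ y' _ hyy'
    exact ⟨0, by simp [nm], hyy'⟩
  · refine ⟨L, 1, 1 / 2, one_pos, by norm_num, fun p _ q _ hp hq hp2 hq2 => ?_⟩
    rw [Real.rpow_one]
    exact (hLip p hp q hq hp2.le hq2.le).1
  · refine ⟨L, 1, min δ (1 / 4), 0, one_pos, by positivity, fun y _ y' _ hy' hy'2 hd => ?_⟩
    have h1 : dist y' y < δ := by
      rw [dist_comm]
      exact hd.trans_le (min_le_left _ _)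
    have h2 : ‖χ y'‖ ≤ 1 / 4 := (hy'2.trans_le (min_le_right _ _)).le
    obtain ⟨h3, h4⟩ := hclose y' hy' h2 y h1
    refine ⟨0, by simp [nm], h3, ?_⟩
    rw [Real.rpow_one]
    exact (hLip y h3 y' hy' h4.le (by linarith)).2

end Pool.Agent.N813.EM
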