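import Pool.Agent.N813.EM.Stm2
import Pool.Agent.W699.SC.GC

/-!
# Project EM2, FIN: closed manifolds have finite box dimension
-/

set_option autoImplicit false

open scoped Manifold ContDiff Topology
open Filter Set Metric

universe u

namespace Pool.Agent.N813.EM.FIN

open Pool.Agent.H718R2.G Pool.Agent.W564.SC Pool.Agent.Y368.CL

/-- nets of the unit ball at the scales `2^(-j)` -/
theorem net_pow (n : ℕ) : ∃ K : ℕ, ∀ j : ℕ, ∃ P : Finset (V n), P.card ≤ K ^ j ∧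
    ∀ v : V n, ‖v‖ ≤ 1 → ∃ p ∈ P, ‖v - p‖ ≤ (1 / 2 : ℝ) ^ j := by
  classical
  obtain ⟨Q, -, hQf, hQ⟩ := (isCompact_closedBall (0 : V n) 1).finite_cover_balls
    (e := 1 / 2) (by norm_num)
  refine ⟨hQf.toFinset.card, fun j => ?_⟩
  induction j with
  | zero =>
    refine ⟨{0}, by simp, fun v hv => ⟨0, by simp, ?_⟩⟩
    rw [sub_zero, pow_zero]
    exact hv
  | succ j ih =>
    obtain ⟨P, hP, hP2⟩ := ih
    refine ⟨(hQf.toFinset ×ˢ P).image fun q => q.1 + (1 / 2 : ℝ) • q.2, ?_, ?_⟩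
    · refine Finset.card_image_le.trans ?_
      rw [Finset.card_product, pow_succ, mul_comm]
      exact Nat.mul_le_mul_right _ hP
    · intro v hv
      have h1 := hQ (mem_closedBall_zero_iff.2 hv)
      rw [mem_iUnion₂] at h1
      obtain ⟨c, hc, hvc⟩ := h1
      rw [mem_ball, dist_eq_norm] at hvc
      obtain ⟨p, hp, hp2⟩ := hP2 ((2 : ℝ) • (v - c)) (by
        rw [norm_smul, Real.norm_of_nonneg zero_le_two]; linarith)
      refine ⟨c + (1 / 2 : ℝ) • p, Finset.mem_image.2 ⟨(c, p), ?_, rfl⟩, ?_⟩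
      · rw [Finset.mem_product]
        exact ⟨hQf.mem_toFinset.2 hc, hp⟩
      · have e : v - (c + (1 / 2 : ℝ) • p) = (1 / 2 : ℝ) • ((2 : ℝ) • (v - c) - p) := by
          rw [smul_sub, smul_smul]
          norm_num
          abel
        rw [e, norm_smul, Real.norm_of_nonneg (by norm_num), pow_succ, mul_comm]
        exact mul_le_mul_of_nonneg_right hp2 (by norm_num)

/-- nets of the unit ball -/
theorem net (n : ℕ) : ∃ D : ℕ, ∀ r : ℝ, 0 < r → r ≤ 1 → ∃ P : Finset (V n),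
    (P.card : ℝ) ≤ (2 / r) ^ D ∧ ∀ v : V n, ‖v‖ ≤ 1 → ∃ p ∈ P, ‖v - p‖ ≤ r := by
  obtain ⟨K, hK⟩ := net_pow n
  refine ⟨K, fun r hr hr1 => ?_⟩
  obtain ⟨m, hm1, hm2⟩ := exists_nat_pow_near_of_lt_one hr hr1 (y := (1 / 2 : ℝ)) (by norm_num)
    (by norm_num)
  obtain ⟨P, hP1, hP2⟩ := hK (m + 1)
  refine ⟨P, ?_, fun v hv => ?_⟩
  · have h1 : (P.card : ℝ) ≤ (K : ℝ) ^ (m + 1) := by exact_mod_cast hP1
    have h2 : (K : ℝ) ≤ 2 ^ K := by exact_mod_cast (Nat.lt_two_pow_self (n := K)).le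
    have h3 : (2 : ℝ) ^ (m + 1) ≤ 2 / r := by
      rw [le_div_iff₀ hr, pow_succ]
      have h4 : (2 : ℝ) ^ m * (1 / 2) ^ m = 1 := by
        rw [← mul_pow]; norm_num
      have h5 : (2 : ℝ) ^ m * r ≤ 2 ^ m * (1 / 2) ^ m :=
        mul_le_mul_of_nonneg_left hm2 (by positivity)
      nlinarith
    calc (P.card : ℝ) ≤ (K : ℝ) ^ (m + 1) := h1
      _ ≤ (2 ^ K) ^ (m + 1) := pow_le_pow_left₀ (Nat.cast_nonneg _) h2 _
      _ = (2 ^ (m + 1)) ^ K := by rw [← pow_mul, ← pow_mul, mul_comm]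
      _ ≤ _ := pow_le_pow_left₀ (by positivity) h3 _
  · obtain ⟨p, hp, hp2⟩ := hP2 v hv
    exact ⟨p, hp, hp2.trans hm1.le⟩

theorem t : S_FIN.{u} := by
  classical
  intro n N _ _ _ _ hLip
  obtain ⟨D, hD⟩ := net n
  choose χ hχ using fun z : N => Pool.Agent.W699.SC.gc n N z
  choose L0 hL0 hL0' using fun z : N => hLip (χ z) z (hχ z)
  -- the constants may be taken at least `1`
  obtain ⟨L, hL, hL'⟩ : ∃ L : N → ℝ, (∀ z, 1 ≤ L z) ∧ ∀ z, ∀ y ∈ (χ z).source,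
      ∀ y' ∈ (χ z).source, ‖χ z y‖ ≤ 1 / 2 → ‖χ z y'‖ ≤ 1 / 2 →
      dist y y' ≤ L z * ‖χ z y - χ z y'‖ := by
    refine ⟨fun z => max 1 (L0 z), fun z => le_max_left _ _, fun z y hy y' hy' h h' => ?_⟩
    exact (hL0' z y hy y' hy' h h').1.trans
      (mul_le_mul_of_nonneg_right (le_max_right _ _) (norm_nonneg _))
  set O : N → Set N := fun z => (χ z).source ∩ χ z ⁻¹' ball 0 (1 / 2) with hO
  have hOn : ∀ z, O z ∈ 𝓝 z := fun z =>
    ((χ z).isOpen_inter_preimage isOpen_ball).mem_nhds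
      ⟨(hχ z).src, by rw [mem_preimage, (hχ z).zero]; simp⟩
  obtain ⟨F, hF⟩ := CompactSpace.elim_nhds_subcover O hOn
  refine ⟨∑ z ∈ F, (4 * L z) ^ D, D, fun s hs hs1 => ?_⟩
  -- one chart
  have h1 : ∀ z : N, ∃ T : Finset N, (T.card : ℝ) ≤ (4 * L z) ^ D * (1 / s) ^ D ∧
      ∀ b ∈ O z, ∃ c ∈ T, dist b c ≤ s := by
    intro z
    have hLz := hL z
    have hLz0 : 0 < L z := by linarith
    obtain ⟨P, hP1, hP2⟩ := hD (s / (2 * L z)) (by positivity)
      (by rw [div_le_one (by positivity)]; linarith)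
    have h2 : ∀ p : V n, ∃ y : N, (∃ y ∈ O z, ‖χ z y - p‖ ≤ s / (2 * L z)) →
        y ∈ O z ∧ ‖χ z y - p‖ ≤ s / (2 * L z) := by
      intro p
      by_cases h : ∃ y ∈ O z, ‖χ z y - p‖ ≤ s / (2 * L z)
      · obtain ⟨y, hy, hy2⟩ := h
        exact ⟨y, fun _ => ⟨hy, hy2⟩⟩
      · exact ⟨z, fun h' => absurd h' h⟩
    choose f hf using h2
    refine ⟨P.image f, ?_, ?_⟩
    · refine le_trans (by exact_mod_cast Finset.card_image_le) (hP1.trans (le_of_eq ?_))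
      rw [← mul_pow]
      congr 1
      field_simp
      ring
    · intro b hb
      have hb2 : ‖χ z b‖ < 1 / 2 := by
        have := hb.2
        rwa [mem_preimage, mem_ball_zero_iff] at this
      obtain ⟨p, hp, hp2⟩ := hP2 (χ z b) (by linarith)
      obtain ⟨hy, hy2⟩ := hf p ⟨b, hb, hp2⟩
      refine ⟨f p, Finset.mem_image_of_mem f hp, ?_⟩
      have hy3 : ‖χ z (f p)‖ < 1 / 2 := by
        have := hy.2
        rwa [mem_preimage, mem_ball_zero_iff] at this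
      have h3 := hL' z b hb.1 (f p) hy.1 hb2.le hy3.le
      have h4 : ‖χ z b - χ z (f p)‖ ≤ s / (2 * L z) + s / (2 * L z) := by
        have e : χ z b - χ z (f p) = (χ z b - p) - (χ z (f p) - p) := by abel
        rw [e]
        exact (norm_sub_le _ _).trans (add_le_add hp2 hy2)
      have h5 : L z * (s / (2 * L z) + s / (2 * L z)) = s := by
        field_simp
        ring
      calc dist b (f p) ≤ L z * ‖χ z b - χ z (f p)‖ := h3
        _ ≤ L z * (s / (2 * L z) + s / (2 * L z)) := mul_le_mul_of_nonneg_left h4 hLz0.le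
        _ = s := h5
  choose T hT1 hT2 using h1
  refine ⟨F.biUnion T, ?_, fun b => ?_⟩
  · calc ((F.biUnion T).card : ℝ) ≤ ((∑ z ∈ F, (T z).card : ℕ) : ℝ) := by
          exact_mod_cast Finset.card_biUnion_le
      _ = ∑ z ∈ F, ((T z).card : ℝ) := by push_cast; rfl
      _ ≤ ∑ z ∈ F, (4 * L z) ^ D * (1 / s) ^ D := Finset.sum_le_sum fun z _ => hT1 z
      _ = _ := by rw [Finset.sum_mul]
  · have hb : b ∈ ⋃ z ∈ F, O z := by rw [hF]; trivial
    rw [mem_iUnion₂] at hb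
    obtain ⟨z, hz, hbz⟩ := hb
    obtain ⟨c, hc, hbc⟩ := hT2 z b hbz
    exact ⟨c, Finset.mem_biUnion.2 ⟨z, hz, hc⟩, hbc⟩

end Pool.Agent.N813.EM.FIN
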