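import Pool.Agent.N813.CL.Lift
import Pool.Agent.N813.EM.DefsF

/-!
# Polynomially close returns: the lift to the manifold
-/

set_option autoImplicit false

open scoped Manifold ContDiff Topology
open Filter Set Metric

universe u v

namespace Pool.Agent.N813.EM

open Pool.Agent.H718R2.G Pool.Agent.W564.SC Pool.Agent.N813.CL

/-- choice of the exponent and of the scale -/
theorem scales {C₁ θ₁ C₂ θ₂ κ e : ℝ} (hC₁ : 0 < C₁) (hθ₁ : 0 < θ₁) (hC₂ : 0 < C₂) (hθ₂ : 0 < θ₂)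
    (hκ : 0 < κ) (he : 0 < e) (kU : ℕ) :
    ∃ (A : ℕ) (η : ℝ), 0 < η ∧ ∀ ρ : ℝ, 0 < ρ → ρ < η →
      ∃ r : ℝ, 0 < r ∧ r ≤ e ∧ r < κ ∧ C₁ * r ^ θ₁ ≤ ρ ∧ C₂ * (ρ ^ A) ^ θ₂ < κ * r ^ kU := by
  obtain ⟨A, hA⟩ := exists_nat_gt ((kU / θ₁ + 1) / θ₂)
  rw [div_lt_iff₀ hθ₂] at hA
  -- r = (ρ / C₁)^(1/θ₁)
  obtain ⟨m, hm⟩ : ∃ m : ℝ, m = min e κ / 2 := ⟨_, rfl⟩
  have hm0 : 0 < m := by rw [hm]; exact half_pos (lt_min he hκ)
  have hmm : m < min e κ := by rw [hm]; exact half_lt_self (lt_min he hκ)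
  obtain ⟨Q, hQ⟩ : ∃ Q : ℝ, Q = C₂ * (C₁ ^ (1 / θ₁)) ^ kU := ⟨_, rfl⟩
  have hQ0 : 0 < Q := by rw [hQ]; positivity
  refine ⟨A, min (min 1 (C₁ * m ^ θ₁)) (κ / Q), by positivity, fun ρ hρ hρη => ?_⟩
  have hρ1 : ρ < 1 := hρη.trans_le ((min_le_left _ _).trans (min_le_left _ _))
  have hρ2 : ρ < C₁ * m ^ θ₁ := hρη.trans_le ((min_le_left _ _).trans (min_le_right _ _))
  have hρ3 : ρ < κ / Q := hρη.trans_le (min_le_right _ _)
  obtain ⟨r, hr⟩ : ∃ r : ℝ, r = (ρ / C₁) ^ (1 / θ₁) := ⟨_, rfl⟩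
  have hr0 : 0 < r := by rw [hr]; positivity
  have hrθ : r ^ θ₁ = ρ / C₁ := by
    rw [hr, ← Real.rpow_mul (by positivity), one_div_mul_cancel hθ₁.ne', Real.rpow_one]
  have hrm : r ≤ m := by
    have h1 : r ^ θ₁ ≤ m ^ θ₁ := by
      rw [hrθ, div_le_iff₀ hC₁]
      linarith
    exact (Real.rpow_le_rpow_iff hr0.le hm0.le hθ₁).1 h1
  refine ⟨r, hr0, hrm.trans (hmm.le.trans (min_le_left _ _)),
    hrm.trans_lt (hmm.trans_le (min_le_right _ _)), ?_, ?_⟩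
  · rw [hrθ, mul_div_cancel₀ _ hC₁.ne']
  · have e1 : r ^ kU = ρ ^ (kU / θ₁) / (C₁ ^ (1 / θ₁)) ^ kU := by
      rw [hr, Real.div_rpow hρ.le hC₁.le, div_pow]
      congr 1
      rw [← Real.rpow_natCast, ← Real.rpow_mul hρ.le]
      congr 1
      ring
    have e2 : (ρ ^ A) ^ θ₂ ≤ ρ ^ (kU / θ₁ + 1) := by
      rw [← Real.rpow_natCast, ← Real.rpow_mul hρ.le]
      exact Real.rpow_le_rpow_of_exponent_ge hρ hρ1.le hA.le
    have e3 : ρ ^ (kU / θ₁ + 1) = ρ ^ (kU / θ₁) * ρ := by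
      rw [Real.rpow_add hρ, Real.rpow_one]
    have e4 : 0 < ρ ^ (kU / θ₁) := Real.rpow_pos_of_pos hρ _
    have e5 : 0 < (C₁ ^ (1 / θ₁)) ^ kU := by positivity
    calc C₂ * (ρ ^ A) ^ θ₂ ≤ C₂ * (ρ ^ (kU / θ₁) * ρ) := by
          apply mul_le_mul_of_nonneg_left _ hC₂.le
          rw [← e3]
          exact e2
      _ = ρ ^ (kU / θ₁) * (C₂ * ρ) := by ring
      _ < ρ ^ (kU / θ₁) * (κ / (C₁ ^ (1 / θ₁)) ^ kU) := by
          apply mul_lt_mul_of_pos_left _ e4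
          rw [lt_div_iff₀ hQ0, hQ] at hρ3
          rw [lt_div_iff₀ e5]
          linarith
      _ = κ * r ^ kU := by rw [e1]; ring

/-- the lift of polynomially close returns -/
theorem lift (h : S_CL.{u}) {k n : ℕ} {N : Type u}
    [TopologicalSpace N] [T2Space N]
    [CompactSpace N] [ChartedSpace (V n) N] [IsManifold (𝓡 n) ∞ N] {r : ℕ∞} (hr : 1 ≤ r)
    {R : V k → N → N} (hR : ExpAction k n N R) {F : DiffM n N r}
    {K : Set N} {B : Type v} [MetricSpace B]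
    {g : B → B} {π : N → B} (hq : IsQuot F R K g π) {z : N} (hz : z ∈ K)
    {χ : OpenPartialHomeomorph N (V n)} (hχ : GoodChart n N χ z) (hup : HolUp χ K π)
    (hlow : HolLow χ R K π) (hg : PolyClose g (π z)) : Closable n N r F z := by
  have hRc : ∀ a, Continuous (R a) := fun a =>
    hR.smooth.continuous.comp (continuous_const.prodMk continuous_id)
  obtain ⟨H, hH, hH0, hfam⟩ := exp_fam hR r F
  have hit : ∀ (α : V k) (i : ℕ), ∀ y ∈ K, (H α)^[i] y = R ((i : ℝ) • α) (F^[i] y) :=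
    fun α i y hy => iter_H hR hq.mapF hq.comm α (hH α) i hy
  have hnear : ∀ κ : ℝ, 0 < κ → ∃ η : ℝ, 0 < η ∧ ∀ b', dist b' (π z) < η →
      ∃ z' ∈ K, (z' ∈ χ.source ∧ ‖χ z'‖ < κ) ∧ π z' = b' := by
    intro κ hκ
    have h5 : ∀ᶠ y in 𝓝 z, y ∈ χ.source := χ.open_source.mem_nhds hχ.src
    have h6 : ∀ᶠ y in 𝓝 z, ‖χ y‖ < κ := by
      apply (χ.continuousAt hχ.src).norm.eventually_lt continuousAt_const
      rw [hχ.zero, norm_zero]
      exact hκ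
    exact locate hq hRc hz (h5.and h6)
  obtain ⟨C₁', θ₁, e, hθ₁, he, hup⟩ := hup
  obtain ⟨C₂', θ₂, δ, cR, hθ₂, hδ, hlow⟩ := hlow
  intro U hU hFU
  obtain ⟨kU, hkU, κ, hκ, hcl⟩ := h n N r hr (V k) H hfam χ z hχ U hU (hH0 ▸ hFU)
  obtain ⟨η₁, hη₁, hloc⟩ := hnear (min κ (min δ (e / 2))) (by positivity)
  obtain ⟨C₁, hC₁⟩ : ∃ C₁ : ℝ, C₁ = max C₁' 1 := ⟨_, rfl⟩
  obtain ⟨C₂, hC₂⟩ : ∃ C₂ : ℝ, C₂ = max C₂' 1 := ⟨_, rfl⟩
  have hC₁0 : 0 < C₁ := by rw [hC₁]; positivity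
  have hC₂0 : 0 < C₂ := by rw [hC₂]; positivity
  -- the isolation uses `2 * C₁`
  obtain ⟨A, η₂, hη₂, hsc⟩ := scales (C₁ := 2 ^ θ₁ * C₁) (θ₁ := θ₁) (C₂ := C₂) (θ₂ := θ₂) (κ := κ)
    (by positivity) hθ₁ hC₂0 hθ₂ hκ (e := e / 4) (by positivity) kU
  obtain ⟨M, hM, hroot⟩ := small_root (k := k) hκ cR
  obtain ⟨m, b', ρ, hMm, hb', hρ0, hρη, hclose, hiso⟩ := hg (A + 1)
    (min (min η₁ η₂) (min δ (1 / 2))) (by positivity) M
  have q1 : ρ < η₂ := hρη.trans_le ((min_le_left _ _).trans (min_le_right _ _))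
  have q2 : ρ < δ := hρη.trans_le ((min_le_right _ _).trans (min_le_left _ _))
  have q3 : ρ < 1 / 2 := hρη.trans_le ((min_le_right _ _).trans (min_le_right _ _))
  have q4 : dist b' (π z) < η₁ := hb'.trans_le ((min_le_left _ _).trans (min_le_left _ _))
  obtain ⟨rr, hr0, hr2, hrκ, hrC, hrk⟩ := hsc ρ hρ0 q1
  obtain ⟨z', hz'K, ⟨hz's, hz'n⟩, hz'π⟩ := hloc b' q4
  have n1 : ‖χ z'‖ < κ := hz'n.trans_le (min_le_left _ _)
  have n2 : ‖χ z'‖ < δ := hz'n.trans_le ((min_le_right _ _).trans (min_le_left _ _))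
  have n3 : ‖χ z'‖ < e / 2 := hz'n.trans_le ((min_le_right _ _).trans (min_le_right _ _))
  have hFm : F^[m] z' ∈ K := iter_mem hq m hz'K
  have hρA : ρ ^ (A + 1) ≤ ρ := by
    have := pow_le_pow_of_le_one hρ0.le (by linarith : ρ ≤ 1) (by omega : 1 ≤ A + 1)
    rwa [pow_one] at this
  have hρA' : ρ ^ (A + 1) ≤ ρ ^ A :=
    pow_le_pow_of_le_one hρ0.le (by linarith : ρ ≤ 1) (by omega)
  have hd : dist (π (F^[m] z')) (π z') = dist (g^[m] b') b' := by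
    rw [iter_equi hq m hz'K, hz'π]
  obtain ⟨β, hβc, hβs, hβ⟩ := hlow (F^[m] z') hFm z' hz'K hz's n2 (by
    rw [hd]
    linarith)
  obtain ⟨α, hα, hαR⟩ := hroot m hMm β hβc
  have hend : (H α)^[m] z' = R β (F^[m] z') := by rw [hit _ _ _ hz'K, hαR]
  refine hcl α z' rr m hα hz's n1 hr0 hrκ (hM.trans hMm) ?_ ?_ ?_
  · rw [hend]
    exact hβs
  · rw [hend]
    rw [hd] at hβ
    refine hβ.trans_lt (lt_of_le_of_lt ?_ hrk)
    apply mul_le_mul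
    · rw [hC₂]; exact le_max_left _ _
    · exact Real.rpow_le_rpow dist_nonneg (hclose.trans hρA') hθ₂.le
    · exact Real.rpow_nonneg dist_nonneg _
    · exact hC₂0.le
  · intro i hi0 him hsrc
    have hK : (H α)^[i] z' ∈ K := by
      rw [hit _ _ _ hz'K]
      exact hq.mapR _ _ (iter_mem hq i hz'K)
    have hπi : π ((H α)^[i] z') = g^[i] (π z') := by
      rw [hit _ _ _ hz'K, hq.inv _ _ (iter_mem hq i hz'K), iter_equi hq i hz'K]
    by_cases hn : ‖χ ((H α)^[i] z')‖ < e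
    · have h5 := hup _ hK z' hz'K hsrc hz's hn (by linarith)
      rw [hπi, hz'π] at h5
      have h6 := (hiso i hi0 him).trans h5
      have h7 : C₁' * ‖χ ((H α)^[i] z') - χ z'‖ ^ θ₁ ≤ C₁ * ‖χ ((H α)^[i] z') - χ z'‖ ^ θ₁ := by
        apply mul_le_mul_of_nonneg_right _ (Real.rpow_nonneg (norm_nonneg _) _)
        rw [hC₁]; exact le_max_left _ _
      have h8 : C₁ * (2 * rr) ^ θ₁ ≤ C₁ * ‖χ ((H α)^[i] z') - χ z'‖ ^ θ₁ := by
        rw [Real.mul_rpow two_pos.le hr0.le]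
        linarith
      have h9 := (mul_le_mul_iff_right₀ hC₁0).1 h8
      exact (Real.rpow_le_rpow_iff (by positivity) (norm_nonneg _) hθ₁).1 h9
    · push Not at hn
      have := norm_sub_norm_le (χ ((H α)^[i] z')) (χ z')
      linarith

end Pool.Agent.N813.EM
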