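import Pool.Agent.N813.EM.Stm

/-!
# Project EM, part NET: Lipschitz partitions of unity (helper87)
-/

set_option autoImplicit false
set_option linter.unusedSectionVars false

open MeasureTheory Filter Set Metric
open scoped Topology

universe v

noncomputable section

namespace Pool.Agent.N813.EM.NET

variable {B : Type v} [MetricSpace B]

/-- the sum of the cone functions -/
def Th (t : Finset B) (s : ℝ) (x : B) : ℝ := ∑ c ∈ t, cone c s 2 x

theorem Th_ge {t : Finset B} {s : ℝ} (hs : 0 < s) (ht : ∀ b, ∃ c ∈ t, dist b c ≤ s) (x : B) :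
    1 ≤ Th t s x := by
  obtain ⟨c, hc, hx⟩ := ht x
  have h1 : cone c s 2 x = 1 := cone_eq_one hs (by linarith)
  rw [← h1]
  exact Finset.single_le_sum (f := fun c => cone c s 2 x) (fun c _ => cone_nonneg c s 2 x) hc

theorem Th_lip (t : Finset B) {s : ℝ} (hs : 0 < s) (x y : B) :
    |Th t s y - Th t s x| ≤ t.card * (1 / s * dist x y) := by
  unfold Th
  rw [← Finset.sum_sub_distrib]
  refine (Finset.abs_sum_le_sum_abs _ _).trans ?_
  refine (Finset.sum_le_card_nsmul t _ (1 / s * dist x y) fun c _ => ?_).trans ?_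
  · have h1 := (obs_cone c hs 2).2 y x
    rwa [dist_comm] at h1
  · rw [nsmul_eq_mul]

theorem phi_lip {t : Finset B} {s : ℝ} (hs : 0 < s) (ht : ∀ b, ∃ c ∈ t, dist b c ≤ s) (c : B)
    (x y : B) : |cone c s 2 x / Th t s x - cone c s 2 y / Th t s y| ≤
      (1 + t.card) * (1 / s) * dist x y ∨ c ∉ t := by
  by_cases hc : c ∈ t
  · left
    have hx := Th_ge hs ht x
    have hy := Th_ge hs ht y
    have hx0 : 0 < Th t s x := by linarith
    have hy0 : 0 < Th t s y := by linarith
    have h1 : cone c s 2 x / Th t s x - cone c s 2 y / Th t s y =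
        (cone c s 2 x - cone c s 2 y) / Th t s x +
          cone c s 2 y / Th t s y * ((Th t s y - Th t s x) / Th t s x) := by
      field_simp
      ring
    have h2 : |(cone c s 2 x - cone c s 2 y) / Th t s x| ≤ 1 / s * dist x y := by
      rw [abs_div, abs_of_pos hx0]
      refine (div_le_self (abs_nonneg _) hx).trans ?_
      exact (obs_cone c hs 2).2 x y
    have h3 : |cone c s 2 y / Th t s y * ((Th t s y - Th t s x) / Th t s x)| ≤
        t.card * (1 / s * dist x y) := by
      rw [abs_mul]
      have h4 : |cone c s 2 y / Th t s y| ≤ 1 := by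
        rw [abs_of_nonneg (div_nonneg (cone_nonneg _ _ _ _) hy0.le), div_le_one hy0]
        exact (cone_le_one c s 2 y).trans hy
      have h5 : |(Th t s y - Th t s x) / Th t s x| ≤ t.card * (1 / s * dist x y) := by
        rw [abs_div, abs_of_pos hx0]
        exact (div_le_self (abs_nonneg _) hx).trans (Th_lip t hs x y)
      calc |cone c s 2 y / Th t s y| * |(Th t s y - Th t s x) / Th t s x|
          ≤ 1 * (t.card * (1 / s * dist x y)) :=
            mul_le_mul h4 h5 (abs_nonneg _) zero_le_one
        _ = _ := one_mul _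
    rw [h1]
    calc _ ≤ |(cone c s 2 x - cone c s 2 y) / Th t s x| +
          |cone c s 2 y / Th t s y * ((Th t s y - Th t s x) / Th t s x)| := abs_add_le _ _
      _ ≤ 1 / s * dist x y + t.card * (1 / s * dist x y) := add_le_add h2 h3
      _ = _ := by ring
  · right
    exact hc

theorem t : S_NET.{v} := by
  intro B _ hB
  obtain ⟨C₀, D, h⟩ := hB
  refine ⟨|C₀| + 2, D, by have := abs_nonneg C₀; linarith, fun s hs hs1 => ?_⟩
  obtain ⟨t, ht1, ht2⟩ := h s hs hs1
  have hS : 1 ≤ 1 / s := by rw [le_div_iff₀ hs]; linarith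
  have hSD : 1 ≤ (1 / s) ^ D := one_le_pow₀ hS
  have hC : (t.card : ℝ) ≤ |C₀| * (1 / s) ^ D :=
    ht1.trans (mul_le_mul_of_nonneg_right (le_abs_self C₀) (by positivity))
  refine ⟨t, fun c x => cone c s 2 x / Th t s x, ?_, fun c hc => ⟨fun x => ?_, fun x y => ?_⟩,
    fun x => ?_, fun c _ x hx => ?_⟩
  · refine hC.trans (mul_le_mul_of_nonneg_right (by linarith) (by positivity))
  · have h1 := Th_ge hs ht2 x
    have h0 : 0 < Th t s x := by linarith
    refine ⟨div_nonneg (cone_nonneg _ _ _ _) h0.le, ?_⟩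
    rw [div_le_one h0]
    exact (cone_le_one c s 2 x).trans h1
  · rcases phi_lip hs ht2 c x y with h1 | h1
    · refine h1.trans (mul_le_mul_of_nonneg_right ?_ dist_nonneg)
      have h2 : (1 + (t.card : ℝ)) ≤ (|C₀| + 2) * (1 / s) ^ D := by
        have : (|C₀| + 2) * (1 / s) ^ D = |C₀| * (1 / s) ^ D + 2 * (1 / s) ^ D := by ring
        rw [this]
        linarith
      calc (1 + (t.card : ℝ)) * (1 / s) ≤ (|C₀| + 2) * (1 / s) ^ D * (1 / s) :=
            mul_le_mul_of_nonneg_right h2 (by positivity)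
        _ = _ := by rw [pow_succ]; ring
    · exact absurd hc h1
  · have h1 := Th_ge hs ht2 x
    have h0 : Th t s x ≠ 0 := by linarith
    rw [← Finset.sum_div]
    exact div_self h0
  · have h1 : cone c s 2 x ≠ 0 := fun h0 => hx (by show cone c s 2 x / Th t s x = 0; rw [h0, zero_div])
    exact cone_ne_zero hs h1

end Pool.Agent.N813.EM.NET
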