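import Pool.Agent.N813.EM.Stm

/-!
# Project EM (helper813), part R1: the measure of the set of returns (by helper273)
-/

set_option autoImplicit false

open MeasureTheory Filter Set Metric
open scoped Topology

universe v

noncomputable section

namespace Pool.Agent.N813.EM.R1

open Pool.Agent.N813.EM

variable {B : Type v} [MetricSpace B] [MeasurableSpace B] [BorelSpace B] {μ : Measure B}
  [IsProbabilityMeasure μ]

theorem intg {u w : B → ℝ} {L L' : ℝ} (hu : Obs L u) (hw : Obs L' w) {g : B → B}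
    (hg : Continuous g) (m : ℕ) : Integrable (fun x => u x * w (g^[m] x)) μ := by
  refine Integrable.of_bound (hu.continuous.mul
    (hw.continuous.comp (hg.iterate m))).aestronglyMeasurable 1 (Eventually.of_forall fun x => ?_)
  rw [Real.norm_eq_abs, abs_mul, abs_of_nonneg (hu.1 x).1, abs_of_nonneg (hw.1 _).1]
  exact mul_le_one₀ (hu.1 x).2 (hw.1 _).1 (hw.1 _).2

theorem t (hN : S_NET.{v}) : S_R1.{v} := by
  intro B _ _ _ μ _ g hg hfin C κ β q hC hM C₀ δ hδ hF
  obtain ⟨Cn, D, hCn, hnet⟩ := hN B hfin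
  have hne : Nonempty B := by
    by_contra h
    rw [not_nonempty_iff] at h
    have h1 : μ univ = 1 := measure_univ
    rw [Set.univ_eq_empty_iff.2 h, measure_empty] at h1
    exact zero_ne_one h1
  obtain ⟨b₀⟩ := hne
  have hC0 : 0 ≤ C₀ := by
    have h1 := hF b₀ 1 one_pos
    rw [Real.one_rpow, mul_one] at h1
    exact measureReal_nonneg.trans h1
  have h4 : (0 : ℝ) ≤ 4 ^ δ := Real.rpow_nonneg (by norm_num) _
  have hA : 0 ≤ C₀ * 4 ^ δ := mul_nonneg hC0 h4
  have hB : 0 ≤ Cn * C * Cn ^ q := by positivity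
  refine ⟨C₀ * 4 ^ δ + Cn * C * Cn ^ q + 1, D + (D + 1) * q, by linarith, ?_⟩
  intro m s hs hs1
  obtain ⟨t, φ, hcard, hobs, hsum, hsupp⟩ := hnet s hs hs1
  set e : ℝ := Real.exp (-(κ * (m : ℝ) ^ β)) with he
  have he0 : 0 ≤ e := (Real.exp_pos _).le
  have h1s : 1 ≤ 1 / s := by
    rw [le_div_iff₀ hs, one_mul]
    exact hs1
  set L : ℝ := Cn * (1 / s) ^ (D + 1) with hL
  have hp1 : 1 / s ≤ (1 / s) ^ (D + 1) := by
    calc 1 / s = (1 / s) ^ 1 := (pow_one _).symm
      _ ≤ _ := pow_le_pow_right₀ h1s (by omega)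
  have hsL : 1 / s ≤ L := by
    have : 1 * (1 / s) ≤ Cn * (1 / s) ^ (D + 1) :=
      mul_le_mul hCn hp1 (by linarith) (by linarith)
    linarith
  have hL1 : 1 ≤ L := h1s.trans hsL
  have hψ : ∀ c : B, Obs (1 / s) (cone c s 4) := fun c => obs_cone c hs 4
  have hψL : ∀ c : B, Obs L (cone c s 4) := fun c => (hψ c).mono hsL
  -- the pointwise inequality
  have hpt : ∀ x, ({x | dist (g^[m] x) x ≤ s} : Set B).indicator (fun _ => (1 : ℝ)) x ≤
      ∑ c ∈ t, φ c x * cone c s 4 (g^[m] x) := by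
    intro x
    by_cases hx : x ∈ ({x | dist (g^[m] x) x ≤ s} : Set B)
    · rw [indicator_of_mem hx, ← hsum x]
      refine Finset.sum_le_sum fun c hc => ?_
      by_cases h0 : φ c x = 0
      · rw [h0, zero_mul]
      · have h2 := hsupp c hc x h0
        have h3 : dist (g^[m] x) x ≤ s := hx
        have h5 : dist (g^[m] x) c ≤ (4 - 1) * s := by
          have := dist_triangle (g^[m] x) x c
          linarith
        rw [cone_eq_one hs h5, mul_one]
    · rw [indicator_of_notMem hx]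
      exact Finset.sum_nonneg fun c hc => mul_nonneg ((hobs c hc).1 x).1 (cone_nonneg _ _ _ _)
  have hmeas : MeasurableSet ({x | dist (g^[m] x) x ≤ s} : Set B) :=
    (isClosed_ret hg m s).measurableSet
  have hret : ret g μ m s ≤ ∑ c ∈ t, ∫ x, φ c x * cone c s 4 (g^[m] x) ∂μ := by
    have h1 : ∫ x, ({x | dist (g^[m] x) x ≤ s} : Set B).indicator (fun _ => (1 : ℝ)) x ∂μ ≤
        ∫ x, ∑ c ∈ t, φ c x * cone c s 4 (g^[m] x) ∂μ := by
      refine integral_mono ((integrable_const _).indicator hmeas) ?_ hpt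
      exact integrable_finset_sum _ fun c hc => intg (hobs c hc) (hψ c) hg m
    rw [integral_indicator_const _ hmeas, smul_eq_mul, mul_one,
      integral_finset_sum _ fun c hc => intg (hobs c hc) (hψ c) hg m] at h1
    exact h1
  -- the terms
  have hterm : ∀ c ∈ t, ∫ x, φ c x * cone c s 4 (g^[m] x) ∂μ ≤
      (∫ x, φ c x ∂μ) * (C₀ * 4 ^ δ * s ^ δ) + C * L ^ q * e := by
    intro c hc
    have h1 := hM L (φ c) (cone c s 4) hL1 (hobs c hc) (hψL c) m
    have h2 : ∫ x, φ c x * cone c s 4 (g^[m] x) ∂μ ≤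
        (∫ x, φ c x ∂μ) * (∫ x, cone c s 4 x ∂μ) + C * L ^ q * e := by
      have := (abs_le.1 h1).2
      linarith
    have h3 : ∫ x, cone c s 4 x ∂μ ≤ C₀ * 4 ^ δ * s ^ δ := by
      have h5 := (hψ c).integral_le (μ := μ) (S := closedBall c (4 * s)) isClosed_closedBall
        fun x hx => (cone_ne_zero hs hx).le
      have h6 := hF c (4 * s) (by linarith)
      rw [Real.mul_rpow (by norm_num) hs.le, ← mul_assoc] at h6
      exact h5.trans h6
    have h7 := mul_le_mul_of_nonneg_left h3 ((hobs c hc).integral_nonneg (μ := μ))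
    linarith
  have hone : ∑ c ∈ t, ∫ x, φ c x ∂μ = 1 := by
    rw [← integral_finset_sum _ fun c hc => (hobs c hc).integrable]
    simp only [hsum]
    simp
  have hS : ∑ c ∈ t, ((∫ x, φ c x ∂μ) * (C₀ * 4 ^ δ * s ^ δ) + C * L ^ q * e) =
      C₀ * 4 ^ δ * s ^ δ + t.card * (C * L ^ q * e) := by
    rw [Finset.sum_add_distrib, ← Finset.sum_mul, hone, one_mul, Finset.sum_const, nsmul_eq_mul]
  have hLq : 0 ≤ C * L ^ q * e := by positivity
  have hcard2 : t.card * (C * L ^ q * e) ≤ Cn * C * Cn ^ q * ((1 / s) ^ (D + (D + 1) * q) * e) := by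
    refine (mul_le_mul_of_nonneg_right hcard hLq).trans (le_of_eq ?_)
    rw [hL, mul_pow, ← pow_mul, pow_add]
    ring
  have hsd : 0 ≤ s ^ δ := Real.rpow_nonneg hs.le _
  have hpe : 0 ≤ (1 / s) ^ (D + (D + 1) * q) * e := by positivity
  calc ret g μ m s ≤ ∑ c ∈ t, ∫ x, φ c x * cone c s 4 (g^[m] x) ∂μ := hret
    _ ≤ ∑ c ∈ t, ((∫ x, φ c x ∂μ) * (C₀ * 4 ^ δ * s ^ δ) + C * L ^ q * e) :=
        Finset.sum_le_sum hterm
    _ = C₀ * 4 ^ δ * s ^ δ + t.card * (C * L ^ q * e) := hS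
    _ ≤ C₀ * 4 ^ δ * s ^ δ + Cn * C * Cn ^ q * ((1 / s) ^ (D + (D + 1) * q) * e) := by linarith
    _ ≤ _ := by
        nlinarith [mul_nonneg hA hpe, mul_nonneg hB hsd]

end Pool.Agent.N813.EM.R1
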