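import Pool.Agent.N813.EM.Stm

/-!
# Project EM (helper813), part R23 (helper8): total measure of the early returns
-/

set_option autoImplicit false
set_option linter.unusedSectionVars false

open MeasureTheory Filter Set Metric
open scoped Topology

universe v

noncomputable section

namespace Pool.Agent.N813.EM.R23

variable {B : Type v} [MetricSpace B] [MeasurableSpace B] [BorelSpace B] {μ : Measure B}
  [IsProbabilityMeasure μ]


/-- iterated returns -/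
lemma dist_mul {g : B → B} {Λ : ℝ} (h1 : 1 ≤ Λ) (hg : ∀ x y, dist (g x) (g y) ≤ Λ * dist x y)
    (m : ℕ) {s : ℝ} (hs : 0 ≤ s) {x : B} (hx : dist (g^[m] x) x ≤ s) (j : ℕ) :
    dist (g^[m * j] x) x ≤ j * Λ ^ (m * j) * s := by
  have h0 : 0 ≤ Λ := by linarith
  induction j with
  | zero => simp
  | succ j ih =>
    have e : g^[m * (j + 1)] x = g^[m * j] (g^[m] x) := by
      rw [Nat.mul_succ, Function.iterate_add_apply]
    have h2 : dist (g^[m * j] (g^[m] x)) (g^[m * j] x) ≤ Λ ^ (m * j) * s :=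
      (dist_iter_le h0 hg (m * j) _ _).trans (mul_le_mul_of_nonneg_left hx (by positivity))
    have h3 : Λ ^ (m * j) ≤ Λ ^ (m * (j + 1)) :=
      pow_le_pow_right₀ h1 (Nat.mul_le_mul_left m (Nat.le_succ j))
    rw [e]
    calc dist (g^[m * j] (g^[m] x)) x ≤ dist (g^[m * j] (g^[m] x)) (g^[m * j] x) +
          dist (g^[m * j] x) x := dist_triangle _ _ _
      _ ≤ Λ ^ (m * j) * s + j * Λ ^ (m * j) * s := add_le_add h2 ih
      _ = ((j : ℝ) + 1) * s * Λ ^ (m * j) := by ring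
      _ ≤ ((j : ℝ) + 1) * s * Λ ^ (m * (j + 1)) :=
          mul_le_mul_of_nonneg_left h3 (by positivity)
      _ = ((j + 1 : ℕ) : ℝ) * Λ ^ (m * (j + 1)) * s := by push_cast; ring

lemma ret_mul {g : B → B} {Λ : ℝ} (h1 : 1 ≤ Λ) (hg : ∀ x y, dist (g x) (g y) ≤ Λ * dist x y)
    (m : ℕ) {s : ℝ} (hs : 0 ≤ s) (j : ℕ) : ret g μ m s ≤ ret g μ (m * j) (j * Λ ^ (m * j) * s) :=
  measureReal_mono fun _ hx => dist_mul h1 hg m hs hx j

/-- the returns at one time -/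
lemma one_time {g : B → B} {Λ : ℝ} (h1 : 1 ≤ Λ) (hg : ∀ x y, dist (g x) (g y) ≤ Λ * dist x y)
    {κ β C₁ δ : ℝ} {P : ℕ} (hκ : 0 < κ) (hβ : 0 < β) (hδ : 0 < δ) (hC : 0 < C₁)
    (hret : ∀ (m : ℕ) (s : ℝ), 0 < s → s ≤ 1 →
      ret g μ m s ≤ C₁ * (s ^ δ + (1 / s) ^ P * Real.exp (-(κ * (m : ℝ) ^ β))))
    {m : ℕ} (hm : 1 ≤ m) {ε : ℝ} (hε : 0 < ε) :
    ∀ᶠ s in 𝓝[>] (0 : ℝ), ret g μ m s ≤ ε := by
  -- the scale
  obtain ⟨s2, hs2, hs21, hs2ε⟩ : ∃ s2 : ℝ, 0 < s2 ∧ s2 ≤ 1 ∧ C₁ * s2 ^ δ ≤ ε / 2 := by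
    refine ⟨min 1 ((ε / (2 * C₁)) ^ (1 / δ)), by positivity, min_le_left _ _, ?_⟩
    have e1 : (min 1 ((ε / (2 * C₁)) ^ (1 / δ))) ^ δ ≤ ((ε / (2 * C₁)) ^ (1 / δ)) ^ δ :=
      Real.rpow_le_rpow (by positivity) (min_le_right _ _) hδ.le
    rw [← Real.rpow_mul (by positivity), one_div_mul_cancel hδ.ne', Real.rpow_one] at e1
    calc _ ≤ C₁ * (ε / (2 * C₁)) := mul_le_mul_of_nonneg_left e1 hC.le
      _ = ε / 2 := by field_simp
  -- the multiple
  obtain ⟨j, hj, hjε⟩ : ∃ j : ℕ, 1 ≤ j ∧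
      C₁ * ((1 / s2) ^ P * Real.exp (-(κ * ((m * j : ℕ) : ℝ) ^ β))) ≤ ε / 2 := by
    have h2 : Tendsto (fun j : ℕ => ((m * j : ℕ) : ℝ)) atTop atTop :=
      tendsto_natCast_atTop_atTop.comp (tendsto_id.const_mul_atTop' hm)
    have h3 : Tendsto (fun j : ℕ => κ * ((m * j : ℕ) : ℝ) ^ β) atTop atTop :=
      ((tendsto_rpow_atTop hβ).comp h2).const_mul_atTop hκ
    have h4 : Tendsto (fun j : ℕ => C₁ * ((1 / s2) ^ P *
        Real.exp (-(κ * ((m * j : ℕ) : ℝ) ^ β)))) atTop (𝓝 0) := by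
      have := ((Real.tendsto_exp_neg_atTop_nhds_zero.comp h3).const_mul ((1 / s2) ^ P)).const_mul C₁
      simpa using this
    obtain ⟨j, h5, h6⟩ := ((h4.eventually (gt_mem_nhds (half_pos hε))).and
      (eventually_ge_atTop 1)).exists
    exact ⟨j, h6, h5.le⟩
  have hj' : (0 : ℝ) < j := by exact_mod_cast hj
  have hL : 0 < (j : ℝ) * Λ ^ (m * j) := by positivity
  have hev1 : ∀ᶠ s in 𝓝[>] (0 : ℝ), s < s2 / (j * Λ ^ (m * j)) :=
    Filter.Eventually.filter_mono nhdsWithin_le_nhds (gt_mem_nhds (by positivity))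
  have hev : ∀ᶠ s in 𝓝[>] (0 : ℝ), s < s2 / (j * Λ ^ (m * j)) ∧ 0 < s :=
    hev1.and self_mem_nhdsWithin
  filter_upwards [hev] with s hs
  rw [lt_div_iff₀ hL] at hs
  have h7 : (j : ℝ) * Λ ^ (m * j) * s ≤ s2 := by linarith [hs.1]
  calc ret g μ m s ≤ ret g μ (m * j) (j * Λ ^ (m * j) * s) := ret_mul h1 hg m hs.2.le j
    _ ≤ ret g μ (m * j) s2 := ret_mono g (m * j) h7
    _ ≤ C₁ * (s2 ^ δ + (1 / s2) ^ P * Real.exp (-(κ * ((m * j : ℕ) : ℝ) ^ β))) :=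
        hret _ _ hs2 hs21
    _ ≤ ε := by rw [mul_add]; linarith

lemma summable_exp {a β : ℝ} (ha : 0 < a) (hβ : 0 < β) :
    Summable fun m : ℕ => Real.exp (-(a * (m : ℝ) ^ β)) := by
  have h1 := isLittleO_exp_neg_mul_rpow_atTop ha (-2 / β)
  have h2 : Tendsto (fun m : ℕ => (m : ℝ) ^ β) atTop atTop :=
    (tendsto_rpow_atTop hβ).comp tendsto_natCast_atTop_atTop
  have h3 := (h1.comp_tendsto h2).isBigO
  have h4 : Summable fun m : ℕ => (m : ℝ) ^ (-2 : ℝ) := Real.summable_nat_rpow.2 (by norm_num)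
  refine summable_of_isBigO_nat h4 ?_
  refine (h3.congr (fun m => ?_) (fun m => ?_))
  · simp only [Function.comp_apply]
    congr 1
    ring
  · simp only [Function.comp_apply]
    rw [← Real.rpow_mul (Nat.cast_nonneg m)]
    congr 1
    field_simp

theorem t : S_R23.{v} := by
  intro B _ _ _ μ _ g Λ hg κ β C₁ δ P hκ hβ _ hδ hC hret Q ε hQ hε
  -- the Lipschitz constant
  have h1 : (1 : ℝ) ≤ max Λ 1 := le_max_right _ _
  have hg' : ∀ x y, dist (g x) (g y) ≤ max Λ 1 * dist x y := fun x y =>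
    (hg x y).trans (mul_le_mul_of_nonneg_right (le_max_left _ _) dist_nonneg)
  -- the exponent
  obtain ⟨P', hP1, hPP, hPQ⟩ : ∃ P' : ℝ, 1 ≤ P' ∧ (P : ℝ) ≤ P' ∧ Q / 2 ≤ P' :=
    ⟨max (max P (Q / 2)) 1, le_max_right _ _, (le_max_left _ _).trans (le_max_left _ _),
      (le_max_right _ _).trans (le_max_left _ _)⟩
  have hP0 : 0 < P' := by linarith
  obtain ⟨a, ha⟩ : ∃ a : ℝ, a = δ * κ / (2 * P') := ⟨_, rfl⟩
  have ha0 : 0 < a := by rw [ha]; positivity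
  -- the bound for one late time
  have hlate : ∀ (s : ℝ) (G : ℕ), 0 < s → s ≤ 1 → κ * (G : ℝ) ^ β ≤ Q * Real.log (1 / s) →
      ∀ m ∈ Finset.Icc 1 G, ret g μ m s ≤
        C₁ * (Real.exp (-(a * (m : ℝ) ^ β)) + Real.exp (-(κ / 2 * (m : ℝ) ^ β))) := by
    intro s G hs hs1 hG m hm
    rw [Finset.mem_Icc] at hm
    have hmG : (m : ℝ) ^ β ≤ (G : ℝ) ^ β :=
      Real.rpow_le_rpow (Nat.cast_nonneg _) (by exact_mod_cast hm.2) hβ.le
    have hm0 : 0 ≤ (m : ℝ) ^ β := by positivity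
    obtain ⟨y, hy⟩ : ∃ y : ℝ, y = κ * (m : ℝ) ^ β / (2 * P') := ⟨_, rfl⟩
    have hy0 : 0 ≤ y := by rw [hy]; positivity
    have hlog : 0 ≤ Real.log (1 / s) := Real.log_nonneg (by rw [le_div_iff₀ hs]; linarith)
    have hyl : y ≤ Real.log (1 / s) := by
      rw [hy, div_le_iff₀ (by positivity)]
      calc κ * (m : ℝ) ^ β ≤ κ * (G : ℝ) ^ β := mul_le_mul_of_nonneg_left hmG hκ.le
        _ ≤ Q * Real.log (1 / s) := hG
        _ ≤ 2 * P' * Real.log (1 / s) := mul_le_mul_of_nonneg_right (by linarith) hlog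
        _ = Real.log (1 / s) * (2 * P') := mul_comm _ _
    have hss : s ≤ Real.exp (-y) := by
      rw [← Real.log_le_iff_le_exp hs]
      rw [Real.log_div one_ne_zero hs.ne', Real.log_one, zero_sub] at hyl
      linarith
    have h2 := hret m (Real.exp (-y)) (Real.exp_pos _)
      (Real.exp_le_one_iff.2 (by linarith))
    refine ((ret_mono g m hss).trans h2).trans (mul_le_mul_of_nonneg_left ?_ hC.le)
    refine add_le_add (le_of_eq ?_) ?_
    · rw [← Real.exp_mul]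
      congr 1
      rw [ha, hy]
      ring
    · rw [one_div, ← Real.exp_neg, neg_neg, ← Real.exp_nat_mul, ← Real.exp_add]
      refine Real.exp_le_exp.2 ?_
      have h3 : (P : ℝ) * y ≤ κ / 2 * (m : ℝ) ^ β := by
        rw [hy, mul_div_assoc', div_le_iff₀ (by positivity)]
        have h4 : 0 ≤ κ * (m : ℝ) ^ β := by positivity
        calc (P : ℝ) * (κ * (m : ℝ) ^ β) ≤ P' * (κ * (m : ℝ) ^ β) :=
              mul_le_mul_of_nonneg_right hPP h4
          _ = κ / 2 * (m : ℝ) ^ β * (2 * P') := by ring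
      linarith
  -- the tail
  have hsum : Summable fun m : ℕ =>
      C₁ * (Real.exp (-(a * (m : ℝ) ^ β)) + Real.exp (-(κ / 2 * (m : ℝ) ^ β))) :=
    ((summable_exp ha0 hβ).add (summable_exp (half_pos hκ) hβ)).mul_left C₁
  obtain ⟨S, hS⟩ := summable_iff_vanishing_norm.1 hsum (ε / 2) (half_pos hε)
  -- the small times
  have hev : ∀ᶠ s in 𝓝[>] (0 : ℝ), ∀ m ∈ S, 1 ≤ m → ret g μ m s ≤ ε / (2 * ((S.card : ℝ) + 1)) := by
    rw [Filter.eventually_all_finset]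
    intro m _
    by_cases hm : 1 ≤ m
    · filter_upwards [one_time h1 hg' hκ hβ hδ hC hret hm
        (show 0 < ε / (2 * ((S.card : ℝ) + 1)) by positivity)] with s hs _
      exact hs
    · exact Eventually.of_forall fun s h => absurd h hm
  have hev2 : ∀ᶠ s in 𝓝[>] (0 : ℝ), s ≤ 1 :=
    mem_nhdsWithin_of_mem_nhds (Iic_mem_nhds one_pos)
  obtain ⟨s₀, hs₀, hs₀'⟩ := mem_nhdsGT_iff_exists_Ioc_subset.1 (hev.and hev2)
  refine ⟨s₀, hs₀, fun s G hs hss hG => ?_⟩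
  obtain ⟨h5, h6⟩ := hs₀' ⟨hs, hss⟩
  rw [← Finset.sum_inter_add_sum_sdiff (Finset.Icc 1 G) S]
  have h7 : ∑ m ∈ Finset.Icc 1 G ∩ S, ret g μ m s ≤ ε / 2 := by
    calc ∑ m ∈ Finset.Icc 1 G ∩ S, ret g μ m s ≤
          ∑ _m ∈ Finset.Icc 1 G ∩ S, ε / (2 * ((S.card : ℝ) + 1)) := by
          refine Finset.sum_le_sum fun m hm => ?_
          rw [Finset.mem_inter, Finset.mem_Icc] at hm
          exact h5 m hm.2 hm.1.1
      _ = ((Finset.Icc 1 G ∩ S).card : ℝ) * (ε / (2 * ((S.card : ℝ) + 1))) := by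
          rw [Finset.sum_const, nsmul_eq_mul]
      _ ≤ ((S.card : ℝ) + 1) * (ε / (2 * ((S.card : ℝ) + 1))) := by
          refine mul_le_mul_of_nonneg_right ?_ (by positivity)
          have : ((Finset.Icc 1 G ∩ S).card : ℝ) ≤ (S.card : ℝ) := by
            exact_mod_cast Finset.card_le_card Finset.inter_subset_right
          linarith
      _ = ε / 2 := by field_simp
  have h8 : ∑ m ∈ Finset.Icc 1 G \ S, ret g μ m s ≤ ε / 2 := by
    have h9 := hS (Finset.Icc 1 G \ S) Finset.sdiff_disjoint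
    rw [Real.norm_eq_abs] at h9
    calc ∑ m ∈ Finset.Icc 1 G \ S, ret g μ m s ≤ ∑ m ∈ Finset.Icc 1 G \ S,
          C₁ * (Real.exp (-(a * (m : ℝ) ^ β)) + Real.exp (-(κ / 2 * (m : ℝ) ^ β))) := by
          refine Finset.sum_le_sum fun m hm => ?_
          exact hlate s G hs h6 hG m (Finset.sdiff_subset hm)
      _ ≤ ε / 2 := (le_abs_self _).trans h9.le
  linarith

end Pool.Agent.N813.EM.R23
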