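import Pool.Agent.N813.EM.Poly
import Pool.Agent.N813.EM.Lift
import Pool.Agent.N813.EM.NET
import Pool.Agent.N813.EM.M32
import Pool.Agent.N813.EM.R1
import Pool.Agent.N813.EM.R23
import Pool.Agent.N813.EM.CELL
import Pool.Agent.N738.EM.MID
import Pool.Agent.N813.EM.ASY
import Pool.Agent.N813.EM.FIN
import Pool.Agent.N813.EM.BIL
import Pool.Agent.N813.EM.Cor
import Pool.Agent.Y368.GG.Main
import Pool.Agent.Y504.CO.KSG
import Pool.Agent.W564.SC.Lib

/-!
# The closing lemma for mixing measures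
-/

set_option autoImplicit false

open scoped Manifold ContDiff Topology
open MeasureTheory Filter Set Metric

universe u v

namespace Pool.Agent.N813.EM

open Pool.Agent.H718R2.G Pool.Agent.W564.SC Pool.Agent.N813.CL.F Pool.Agent.TH80.OMS
  Pool.Agent.Y504.CO.KSG

theorem polyClose {B : Type v} [MetricSpace B] [MeasurableSpace B] [BorelSpace B] {μ : Measure B}
    (g : B ≃ₜ B) (hfin : FinDim B) (hbl : BiLip g) {b : B} (h : MixMeas g μ b) :
    PolyClose g b := by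
  obtain ⟨h2, h3, h4, h5, h6⟩ := h
  exact poly_aux NET.t M32.t (R1.t NET.t) R23.t CELL.t Pool.Agent.N738.EM.MID.t ASY.t g hbl h3 hfin h4
    h5 h6

theorem closing {k n : ℕ} {N : Type u} [TopologicalSpace N] [T2Space N]
    [CompactSpace N] [ChartedSpace (V n) N] [IsManifold (𝓡 n) ∞ N] {r : ℕ∞} (hr : 1 ≤ r)
    {F : DiffM n N r} {z : N} (h : MixHyp.{u, v} k n N F z) : Closable n N r F z := by
  obtain ⟨R, K, B, _, _, _, _, g, μ, π, χ, ⟨hR1, hR2, hR3⟩, ⟨hK1, hK2⟩, ⟨hq1, hq2, hq3, c, hq4⟩,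
    hF, hz, hχ, hup, hlow, hfin, hbl, hmix⟩ := h
  exact lift t_CL.{u} hr ⟨hR1, hR2, hR3⟩ ⟨hK1, fun y hy => (hK2 y hy).1,
    fun X y hy => ((hK2 y hy).2 X).1, fun X y hy => ((hK2 y hy).2 X).2, hq1, hq2, hq3, ⟨c, hq4⟩,
    hF⟩ hz hχ hup hlow (polyClose g hfin hbl hmix)

/-- Q1 -/
theorem main1 {n : ℕ} {N : Type u} [MetricSpace N] [CompactSpace N] [MeasurableSpace N]
    [BorelSpace N] [ChartedSpace (V n) N] [IsManifold (𝓡 n) ∞ N] (r : ℕ∞) (hr : 1 ≤ r)
    (F : DiffM n N r) (z : N) (h : MixLim.{u, v} n N r F z) :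
    Approx n N r F fun G => IsPer G z := by
  intro U hU hFU
  obtain ⟨F', hF', ⟨hN, μ, h'⟩ | ⟨k, h'⟩⟩ := h U hU hFU
  · exact closing hr (mixHyp FIN.t BIL.t hN hr F' h') U hU hF'
  · exact closing hr h' U hU hF'

/-- Q2 -/
theorem main2 {n : ℕ} {N : Type u} [MetricSpace N] [CompactSpace N] [MeasurableSpace N]
    [BorelSpace N] [ChartedSpace (V n) N] [IsManifold (𝓡 n) ∞ N] (r : ℕ∞) (hr : 1 ≤ r) :
    BaireSet n N r {f | ∀ z, MixLim.{u, v} n N r f z → z ∈ closure (Per f)} := by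
  obtain ⟨R, h1, h2, h3⟩ := Pool.Agent.Y368.GG.generic_closable (n := n) (N := N) r hr
  exact ⟨R, h1, h2, fun f hf z hz => h3 f hf z (main1 r hr f z hz)⟩

end Pool.Agent.N813.EM
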