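import Pool.Agent.N813.EM.Defs

/-!
# Mixing of order three and recurrence: basic lemmas
-/

set_option autoImplicit false
set_option linter.unusedSectionVars false

open MeasureTheory Filter Set Metric
open scoped Topology

universe v

noncomputable section

namespace Pool.Agent.N813.EM

variable {B : Type v} [MetricSpace B]

theorem Obs.mono {L L' : ℝ} (h : L ≤ L') {u : B → ℝ} (hu : Obs L u) : Obs L' u :=
  ⟨hu.1, fun x y => (hu.2 x y).trans (mul_le_mul_of_nonneg_right h dist_nonneg)⟩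

theorem Obs.continuous {L : ℝ} {u : B → ℝ} (hu : Obs L u) : Continuous u := by
  have h : LipschitzWith (Real.toNNReal L) u := by
    apply LipschitzWith.of_dist_le_mul
    intro x y
    rw [Real.dist_eq]
    refine (hu.2 x y).trans (mul_le_mul_of_nonneg_right (Real.le_coe_toNNReal L) dist_nonneg)
  exact h.continuous

theorem Obs.mul {L L' : ℝ} {u v : B → ℝ} (hu : Obs L u) (hv : Obs L' v) :
    Obs (L + L') fun x => u x * v x := by
  refine ⟨fun x => ⟨mul_nonneg (hu.1 x).1 (hv.1 x).1, mul_le_one₀ (hu.1 x).2 (hv.1 x).1 (hv.1 x).2⟩,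
    fun x y => ?_⟩
  have h1 : u x * v x - u y * v y = (u x - u y) * v x + u y * (v x - v y) := by ring
  rw [h1]
  refine (abs_add_le _ _).trans ?_
  rw [abs_mul, abs_mul, abs_of_nonneg (hv.1 x).1, abs_of_nonneg (hu.1 y).1, add_mul]
  apply add_le_add
  · exact (mul_le_of_le_one_right (abs_nonneg _) (hv.1 x).2).trans (hu.2 x y)
  · exact (mul_le_of_le_one_left (abs_nonneg _) (hu.1 y).2).trans (hv.2 x y)

theorem dist_iter_le {g : B → B} {Λ : ℝ} (h0 : 0 ≤ Λ) (hg : ∀ x y, dist (g x) (g y) ≤ Λ * dist x y)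
    (i : ℕ) (x y : B) : dist (g^[i] x) (g^[i] y) ≤ Λ ^ i * dist x y := by
  induction i with
  | zero => simp
  | succ i ih =>
    rw [Function.iterate_succ_apply', Function.iterate_succ_apply']
    refine (hg _ _).trans ?_
    rw [pow_succ']
    rw [mul_assoc]
    exact mul_le_mul_of_nonneg_left ih h0

theorem Obs.comp_iter {L : ℝ} (hL : 0 ≤ L) {u : B → ℝ} (hu : Obs L u) {g : B → B} {Λ : ℝ}
    (h0 : 0 ≤ Λ) (hg : ∀ x y, dist (g x) (g y) ≤ Λ * dist x y) (i : ℕ) :
    Obs (L * Λ ^ i) fun x => u (g^[i] x) := by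
  refine ⟨fun x => hu.1 _, fun x y => (hu.2 _ _).trans ?_⟩
  rw [mul_assoc]
  exact mul_le_mul_of_nonneg_left (dist_iter_le h0 hg i x y) hL

theorem cone_nonneg (c : B) (s R : ℝ) (x : B) : 0 ≤ cone c s R x := le_max_left _ _

theorem cone_le_one (c : B) (s R : ℝ) (x : B) : cone c s R x ≤ 1 :=
  max_le zero_le_one (min_le_left _ _)

theorem cone_eq_one {c : B} {s R : ℝ} (hs : 0 < s) {x : B} (h : dist x c ≤ (R - 1) * s) :
    cone c s R x = 1 := by
  unfold cone
  have h1 : dist x c / s ≤ R - 1 := by rwa [div_le_iff₀ hs]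
  rw [min_eq_left (by linarith), max_eq_right zero_le_one]

theorem cone_eq_zero {c : B} {s R : ℝ} (hs : 0 < s) {x : B} (h : R * s ≤ dist x c) :
    cone c s R x = 0 := by
  unfold cone
  have h1 : R ≤ dist x c / s := by rwa [le_div_iff₀ hs]
  rw [max_eq_left]
  exact (min_le_right _ _).trans (by linarith)

theorem cone_ne_zero {c : B} {s R : ℝ} (hs : 0 < s) {x : B} (h : cone c s R x ≠ 0) :
    dist x c < R * s := by
  by_contra h1
  exact h (cone_eq_zero hs (not_lt.1 h1))

theorem clamp_sub_le (a b : ℝ) : |max 0 (min 1 a) - max 0 (min 1 b)| ≤ |a - b| := by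
  have h1 := abs_max_sub_max_le_max (0 : ℝ) (min 1 a) 0 (min 1 b)
  have h2 := abs_min_sub_min_le_max (1 : ℝ) a 1 b
  rw [sub_self, abs_zero] at h1 h2
  rw [max_eq_right (abs_nonneg (min 1 a - min 1 b))] at h1
  rw [max_eq_right (abs_nonneg (a - b))] at h2
  exact h1.trans h2

theorem obs_cone (c : B) {s : ℝ} (hs : 0 < s) (R : ℝ) : Obs (1 / s) (cone c s R) := by
  refine ⟨fun x => ⟨cone_nonneg _ _ _ _, cone_le_one _ _ _ _⟩, fun x y => ?_⟩
  unfold cone
  refine (clamp_sub_le _ _).trans ?_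
  have h1 : R - dist x c / s - (R - dist y c / s) = (dist y c - dist x c) / s := by ring
  rw [h1, abs_div, abs_of_pos hs, div_eq_inv_mul, one_div]
  apply mul_le_mul_of_nonneg_left _ (inv_nonneg.2 hs.le)
  rw [dist_comm x y]
  exact abs_dist_sub_le y x c

section meas
variable [MeasurableSpace B] [BorelSpace B] {μ : Measure B} [IsProbabilityMeasure μ]

theorem Obs.integrable {L : ℝ} {u : B → ℝ} (hu : Obs L u) : Integrable u μ := by
  refine Integrable.of_bound hu.continuous.aestronglyMeasurable 1 (Eventually.of_forall fun x => ?_)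
  rw [Real.norm_eq_abs, abs_of_nonneg (hu.1 x).1]
  exact (hu.1 x).2

theorem Obs.integral_nonneg {L : ℝ} {u : B → ℝ} (hu : Obs L u) : 0 ≤ ∫ x, u x ∂μ :=
  MeasureTheory.integral_nonneg fun x => (hu.1 x).1

theorem Obs.integral_le_one {L : ℝ} {u : B → ℝ} (hu : Obs L u) : ∫ x, u x ∂μ ≤ 1 := by
  have h1 : ∫ x, u x ∂μ ≤ ∫ _, (1 : ℝ) ∂μ :=
    integral_mono hu.integrable (integrable_const _) fun x => (hu.1 x).2
  simpa using h1

/-- an observable which vanishes outside of the closed set `S` -/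
theorem Obs.integral_le {L : ℝ} {u : B → ℝ} (hu : Obs L u) {S : Set B} (hS : IsClosed S)
    (h : ∀ x, u x ≠ 0 → x ∈ S) : ∫ x, u x ∂μ ≤ μ.real S := by
  have h1 : ∫ x, u x ∂μ ≤ ∫ x, S.indicator (fun _ => (1 : ℝ)) x ∂μ := by
    apply integral_mono hu.integrable
    · exact (integrable_const _).indicator hS.measurableSet
    · intro x
      by_cases hx : x ∈ S
      · rw [indicator_of_mem hx]
        exact (hu.1 x).2
      · rw [indicator_of_notMem hx]
        by_contra h2
        exact hx (h x fun h3 => h2 (by rw [h3]))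
  rwa [integral_indicator_const _ hS.measurableSet, smul_eq_mul, mul_one] at h1

theorem isClosed_ret {g : B → B} (hg : Continuous g) (m : ℕ) (s : ℝ) :
    IsClosed {x | dist (g^[m] x) x ≤ s} :=
  isClosed_le ((hg.iterate m).dist continuous_id) continuous_const

theorem ret_nonneg (g : B → B) (m : ℕ) (s : ℝ) : 0 ≤ ret g μ m s := measureReal_nonneg

theorem ret_mono (g : B → B) (m : ℕ) {s s' : ℝ} (h : s ≤ s') : ret g μ m s ≤ ret g μ m s' :=
  measureReal_mono fun _ hx => (show _ ≤ _ from hx).trans h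

/-- returns for the inverse map -/
theorem ret_inv {g g' : B → B} (hg' : ∀ x, g' (g x) = x)
    (hg2 : Continuous g') (hμ : MeasurePreserving g μ μ) (m : ℕ) (s : ℝ) :
    μ.real {x | dist (g'^[m] x) x ≤ s} = ret g μ m s := by
  have h1 : g'^[m] ∘ g^[m] = id := by
    funext x
    exact (Function.LeftInverse.iterate hg' m) x
  have h2 : g^[m] ⁻¹' {x | dist (g'^[m] x) x ≤ s} = {x | dist (g^[m] x) x ≤ s} := by
    ext x
    have h3 : g'^[m] (g^[m] x) = x := congrFun h1 x
    show dist (g'^[m] (g^[m] x)) (g^[m] x) ≤ s ↔ dist (g^[m] x) x ≤ s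
    rw [h3, dist_comm]
  unfold ret
  rw [← h2]
  exact ((hμ.iterate m).measureReal_preimage (isClosed_ret hg2 m s).measurableSet.nullMeasurableSet).symm

end meas

end Pool.Agent.N813.EM
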