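import Pool.Agent.N813.EM.Stm

/-!
# Mixing of order three gives polynomially close returns
-/

set_option autoImplicit false

open MeasureTheory Filter Set Metric
open scoped Topology

universe v

noncomputable section

namespace Pool.Agent.N813.EM

theorem poly_aux (hNET : S_NET.{v}) (hM32 : S_M32.{v}) (hR1 : S_R1.{v}) (hR23 : S_R23.{v})
    (hCELL : S_CELL.{v}) (hMID : S_MID.{v}) (hASY : S_ASY)
    {B : Type v} [MetricSpace B] [MeasurableSpace B] [BorelSpace B] {μ : Measure B}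
    [IsProbabilityMeasure μ] (g : B ≃ₜ B) (hbl : BiLip g) (hμ : MeasurePreserving g μ μ)
    (hfin : FinDim B) (hfr : Frost μ) (hmix : ExpMix g μ) {b : B}
    (hb : ∀ η : ℝ, 0 < η → 0 < μ (ball b η)) : PolyClose g b := by
  obtain ⟨Λ0, hΛ0⟩ := hbl
  set Λ := max Λ0 1 with hΛ
  have hΛ1 : 1 ≤ Λ := le_max_right _ _
  have hΛpos : 0 < Λ := by linarith
  have hg : ∀ x y, dist (g x) (g y) ≤ Λ * dist x y := fun x y =>
    (hΛ0 x y).1.trans (mul_le_mul_of_nonneg_right (le_max_left _ _) dist_nonneg)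
  have hg' : ∀ x y, dist (g.symm x) (g.symm y) ≤ Λ * dist x y := by
    intro x y
    have h1 := (hΛ0 (g.symm x) (g.symm y)).2
    rw [g.apply_symm_apply, g.apply_symm_apply] at h1
    exact h1.trans (mul_le_mul_of_nonneg_right (le_max_left _ _) dist_nonneg)
  obtain ⟨Cm, κ, β, q, hCm, hκ, hβ, hβ1, h2, h3⟩ := hM32 B μ g g.continuous hmix
  obtain ⟨Cn, D, hCn, hnet⟩ := hNET B hfin
  obtain ⟨C0, δ, hδ, hfr⟩ := hfr
  obtain ⟨C1, P, hC1, hret⟩ := hR1 B μ g g.continuous hfin Cm κ β q hCm h2 C0 δ hδ hfr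
  intro A η hη M
  obtain ⟨A', hA'⟩ : ∃ A' : ℕ, A' = A + 2 := ⟨_, rfl⟩
  obtain ⟨m₀, hm₀⟩ : ∃ m₀ : ℝ, m₀ = μ.real (ball b (η / 2)) := ⟨_, rfl⟩
  have hm₀pos : 0 < m₀ := by
    rw [hm₀]
    exact ENNReal.toReal_pos (hb _ (half_pos hη)).ne' (measure_ne_top _ _)
  obtain ⟨En, hEn⟩ : ∃ En : ℕ, En = A' * (D + 1) * q + 2 * (A' * D) + 1 := ⟨_, rfl⟩
  have hEpos : (0 : ℝ) < En := by
    have : 0 < En := by omega
    exact_mod_cast this
  obtain ⟨s₀, hs₀, hR⟩ := hR23 B μ g Λ hg κ β C1 δ P hκ hβ hβ1 hδ hC1 hret (2 * En) (m₀ / 32)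
    (by positivity) (by positivity)
  have hC0 : 0 ≤ C0 := by
    have h1 := hfr b 1 one_pos
    rw [Real.one_rpow, mul_one] at h1
    exact measureReal_nonneg.trans h1
  obtain ⟨K₁, hK₁⟩ : ∃ K₁ : ℝ, K₁ = C0 * 3 ^ δ := ⟨_, rfl⟩
  have hK₁0 : 0 ≤ K₁ := by rw [hK₁]; positivity
  obtain ⟨K₂, hK₂⟩ : ∃ K₂ : ℝ, K₂ = 2 * Cm * (2 * Cn) ^ q * 32 * Cn ^ 2 / m₀ ^ 2 := ⟨_, rfl⟩
  have hK₂0 : 0 < K₂ := by rw [hK₂]; positivity
  obtain ⟨T, hT⟩ : ∃ T : ℝ, T = 16 + 4 / s₀ + 8 / η + 8 * K₁ + 2 * K₂ := ⟨_, rfl⟩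
  have p1 : 0 < 4 / s₀ := by positivity
  have p2 : 0 < 8 / η := by positivity
  have hTpos : 0 < T := by rw [hT]; positivity
  have hδ' : 0 < min δ 1 := lt_min hδ one_pos
  obtain ⟨n, G, X, hnM, hX1, hX2, hX3, hG1, hG2, hn⟩ := hASY κ β (Real.log Λ) (min δ 1) (1 / T) En q
    (M + 1) hκ hβ hβ1 (Real.log_nonneg hΛ1) hδ' (by positivity) hEpos
  rw [one_div_one_div] at hX1
  have hX16 : 16 ≤ X := by linarith
  have hX0 : 0 < X := by linarith
  have hn1 : 1 ≤ n := by omega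
  obtain ⟨ρ, hρ⟩ : ∃ ρ : ℝ, ρ = 1 / X := ⟨_, rfl⟩
  have hρ0 : 0 < ρ := by rw [hρ]; positivity
  have hρX : 1 / ρ = X := by rw [hρ, one_div_one_div]
  have hρ16 : ρ ≤ 1 / 16 := by
    rw [hρ]
    exact one_div_le_one_div_of_le (by norm_num) hX16
  obtain ⟨σ, hσ⟩ : ∃ σ : ℝ, σ = ρ ^ A' := ⟨_, rfl⟩
  have hσ0 : 0 < σ := by rw [hσ]; positivity
  have hσX : 1 / σ = X ^ A' := by rw [hσ, hρ, one_div_pow, one_div_one_div]
  have hσρA : 4 * σ ≤ ρ ^ A := by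
    rw [hσ, hA', pow_add]
    have h1 : 0 < ρ ^ A := by positivity
    have h5 : ρ ^ 2 ≤ 1 / 4 := by
      calc ρ ^ 2 ≤ (1 / 16) ^ 2 := pow_le_pow_left₀ hρ0.le hρ16 2
        _ ≤ 1 / 4 := by norm_num
    calc 4 * (ρ ^ A * ρ ^ 2) = ρ ^ A * (4 * ρ ^ 2) := by ring
      _ ≤ ρ ^ A * 1 := mul_le_mul_of_nonneg_left (by linarith) h1.le
      _ = ρ ^ A := mul_one _
  have hσρ : 2 * σ ≤ ρ := by
    rw [hσ, hA', show A + 2 = (A + 1) + 1 by ring, pow_succ]
    have h1 : ρ ^ (A + 1) ≤ 1 / 2 := by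
      calc ρ ^ (A + 1) ≤ ρ ^ 1 := pow_le_pow_of_le_one hρ0.le (by linarith) (by omega)
        _ ≤ 1 / 2 := by rw [pow_one]; linarith
    calc 2 * (ρ ^ (A + 1) * ρ) = (2 * ρ ^ (A + 1)) * ρ := by ring
      _ ≤ 1 * ρ := mul_le_mul_of_nonneg_right (by linarith) hρ0.le
      _ = ρ := one_mul _
  have hσ1 : σ ≤ 1 := by linarith
  have hρη : 4 * ρ ≤ η / 2 := by
    have h1 : 8 / η ≤ X := by linarith
    rw [div_le_iff₀ hη] at h1
    rw [hρ]
    rw [mul_one_div, div_le_div_iff₀ hX0 two_pos]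
    linarith
  have hρs : 4 * ρ ≤ s₀ := by
    have h1 : 4 / s₀ ≤ X := by linarith
    rw [div_le_iff₀ hs₀] at h1
    rw [hρ, mul_one_div, div_le_iff₀ hX0]
    linarith
  obtain ⟨t, φ, hN⟩ := hnet σ hσ0 hσ1
  have hlog : 0 ≤ Real.log X := Real.log_nonneg hX2
  have hRG : ∑ m ∈ Finset.Icc 1 G, ret g μ m (4 * ρ) ≤ m₀ / 32 := by
    apply hR (4 * ρ) G (by positivity) hρs
    refine hG1.trans ?_
    have h1 : Real.log X ≤ 2 * Real.log (1 / (4 * ρ)) := by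
      have h4 : 1 / (4 * ρ) = X / 4 := by rw [hρ]; field_simp
      rw [h4]
      have h5 : 2 * Real.log (X / 4) = Real.log ((X / 4) ^ 2) := by
        rw [Real.log_pow]
        norm_num
      rw [h5]
      apply Real.log_le_log hX0
      nlinarith
    nlinarith
  obtain ⟨c, hct, hcb, hmc, hP⟩ := hCELL B μ g g.symm g.continuous g.symm.continuous
    (fun x => g.symm_apply_apply x) hμ Cn D σ ρ t φ hCn hσ0 hρ0 hσρ hN b (η / 2) m₀ G hm₀pos
    hm₀.le hRG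
  obtain ⟨hN1, hN2, hN3, hN4⟩ := hN
  obtain ⟨L, hL⟩ : ∃ L : ℝ, L = Cn * X ^ (A' * (D + 1)) := ⟨_, rfl⟩
  have hXA : X ≤ X ^ (A' * (D + 1)) := by
    apply le_self_pow₀ hX2
    rw [hA']
    positivity
  have hL1 : X ≤ L := by
    rw [hL]
    nlinarith
  have hLφ : Obs L (φ c) := by
    have h1 := hN2 c hct
    rwa [hσX, ← pow_mul, ← hL] at h1
  have hLψ : Obs L (cone c ρ 3) := by
    apply (obs_cone c hρ0 3).mono
    rw [hρX]
    exact hL1
  obtain ⟨Y, hY⟩ : ∃ Y : ℝ, Y = Real.exp (-((En : ℝ) * Real.log X)) := ⟨_, rfl⟩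
  have hYX : Y = 1 / X ^ En := by
    rw [hY, Real.exp_neg, one_div, ← Real.log_pow, Real.exp_log (by positivity)]
  have hY0 : 0 < Y := by rw [hY]; exact Real.exp_pos _
  have hCm0 : 0 < Cm := by linarith
  have hL0 : 0 < L := by linarith
  have hErr : Cm * (2 * L * Λ ^ G) ^ q * Real.exp (-(κ * (n : ℝ) ^ β)) +
        Cm * L ^ q * Real.exp (-(κ * ((G : ℝ) + 1) ^ β)) ≤ 2 * Cm * (2 * L) ^ q * Y := by
    have e1 : (2 * L * Λ ^ G) ^ q = (2 * L) ^ q * Real.exp (q * Real.log Λ * G) := by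
      rw [mul_pow]
      congr 1
      rw [← pow_mul]
      have h1 : Real.exp (q * Real.log Λ * G) = Real.exp (Real.log (Λ ^ (G * q))) := by
        rw [Real.log_pow]
        congr 1
        push_cast
        ring
      rw [h1, Real.exp_log (by positivity)]
    have e2 : Cm * (2 * L * Λ ^ G) ^ q * Real.exp (-(κ * (n : ℝ) ^ β)) ≤ Cm * (2 * L) ^ q * Y := by
      rw [e1]
      have h1 : Cm * ((2 * L) ^ q * Real.exp (q * Real.log Λ * G)) *
          Real.exp (-(κ * (n : ℝ) ^ β)) = Cm * (2 * L) ^ q *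
          Real.exp (q * Real.log Λ * G + -(κ * (n : ℝ) ^ β)) := by
        rw [Real.exp_add]
        ring
      rw [h1]
      apply mul_le_mul_of_nonneg_left
      · rw [hY]
        apply Real.exp_le_exp.2
        linarith
      · positivity
    have e3 : Cm * L ^ q * Real.exp (-(κ * ((G : ℝ) + 1) ^ β)) ≤ Cm * (2 * L) ^ q * Y := by
      apply mul_le_mul
      · apply mul_le_mul_of_nonneg_left
        · apply pow_le_pow_left₀ (by linarith)
          linarith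
        · linarith
      · rw [hY]
        apply Real.exp_le_exp.2
        linarith
      · exact (Real.exp_pos _).le
      · positivity
    linarith
  have hXδ : (n + 1 : ℝ) / X ^ min δ 1 ≤ 1 / T := hX3
  have hn0 : (0 : ℝ) < n + 1 := by positivity
  have hψ : n * (∫ x, cone c ρ 3 x ∂μ) ≤ 1 / 8 := by
    have h1 : ∫ x, cone c ρ 3 x ∂μ ≤ C0 * (3 * ρ) ^ δ := by
      refine (hLψ.integral_le (S := closedBall c (3 * ρ)) isClosed_closedBall ?_).trans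
        (hfr c (3 * ρ) (by positivity))
      intro x hx
      exact mem_closedBall.2 (cone_ne_zero hρ0 hx).le
    have h4 : (3 * ρ) ^ δ = 3 ^ δ / X ^ δ := by
      rw [hρ, mul_one_div, Real.div_rpow (by norm_num) hX0.le]
    have h5 : 0 < X ^ δ := Real.rpow_pos_of_pos hX0 _
    have h6 : X ^ min δ 1 ≤ X ^ δ := Real.rpow_le_rpow_of_exponent_le hX2 (min_le_left _ _)
    have h7 : (n : ℝ) / X ^ δ ≤ 1 / T := by
      refine le_trans ?_ hXδ
      apply div_le_div₀ hn0.le (by linarith) (Real.rpow_pos_of_pos hX0 _) h6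
    calc n * (∫ x, cone c ρ 3 x ∂μ) ≤ n * (C0 * (3 * ρ) ^ δ) :=
          mul_le_mul_of_nonneg_left h1 (by positivity)
      _ = K₁ * (n / X ^ δ) := by rw [h4, hK₁]; ring
      _ ≤ K₁ * (1 / T) := mul_le_mul_of_nonneg_left h7 hK₁0
      _ ≤ 1 / 8 := by
          rw [mul_one_div, div_le_div_iff₀ hTpos (by norm_num)]
          linarith
  have hfin : (n + 1) * (2 * Cm * (2 * L) ^ q * Y) < (∫ x, φ c x ∂μ) ^ 2 / 2 := by
    obtain ⟨W, hW⟩ : ∃ W : ℝ, W = X ^ (A' * D) := ⟨_, rfl⟩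
    have hW0 : 0 < W := by rw [hW]; positivity
    have h1 : m₀ / (4 * (Cn * W)) ≤ ∫ x, φ c x ∂μ := by
      rw [hW, pow_mul, ← hσX]
      exact hmc
    have h4 : 0 < m₀ / (4 * (Cn * W)) := by positivity
    have h5 : (m₀ / (4 * (Cn * W))) ^ 2 ≤ (∫ x, φ c x ∂μ) ^ 2 := pow_le_pow_left₀ h4.le h1 2
    have h6 : (n + 1) * (2 * Cm * (2 * L) ^ q * Y) =
        2 * Cm * (2 * Cn) ^ q * ((n + 1) / X) / W ^ 2 := by
      rw [hYX, hL, hEn, hW]
      rw [show 2 * (Cn * X ^ (A' * (D + 1))) = (2 * Cn) * X ^ (A' * (D + 1)) by ring, mul_pow,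
        ← pow_mul X (A' * (D + 1)) q, ← pow_mul X (A' * D) 2, pow_succ, pow_add,
        show A' * D * 2 = 2 * (A' * D) by ring]
      field_simp
    have h7 : (n + 1 : ℝ) / X ≤ 1 / T := by
      refine le_trans ?_ hXδ
      apply div_le_div_of_nonneg_left hn0.le (Real.rpow_pos_of_pos hX0 _)
      calc X ^ min δ 1 ≤ X ^ (1 : ℝ) := Real.rpow_le_rpow_of_exponent_le hX2 (min_le_right _ _)
        _ = X := Real.rpow_one X
    have h8 : K₂ * ((n + 1 : ℝ) / X) < 1 := by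
      calc K₂ * ((n + 1 : ℝ) / X) ≤ K₂ * (1 / T) := mul_le_mul_of_nonneg_left h7 hK₂0.le
        _ < 1 := by
          rw [mul_one_div, div_lt_one hTpos]
          linarith
    refine lt_of_lt_of_le ?_ (div_le_div_of_nonneg_right h5 two_pos.le)
    rw [h6]
    rw [hK₂] at h8
    have h9 : (m₀ / (4 * (Cn * W))) ^ 2 / 2 = m₀ ^ 2 / (32 * Cn ^ 2) / W ^ 2 := by
      field_simp
      ring
    rw [h9]
    apply div_lt_div_of_pos_right _ (by positivity)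
    rw [lt_div_iff₀ (by positivity)]
    have h10 : 2 * Cm * (2 * Cn) ^ q * 32 * Cn ^ 2 / m₀ ^ 2 * ((n + 1 : ℝ) / X) =
        (2 * Cm * (2 * Cn) ^ q * ((n + 1 : ℝ) / X) * (32 * Cn ^ 2)) / m₀ ^ 2 := by ring
    rw [h10, div_lt_one (by positivity)] at h8
    exact h8
  obtain ⟨z, hz1, hz2, hz3⟩ := hMID B μ g g.symm Λ hΛ1 hg hg' (fun x => g.symm_apply_apply x) hμ
    Cm κ β q hCm hκ hβ h2 h3 L (φ c) (cone c ρ 3) n G (2 * Cm * (2 * L) ^ q * Y) (by linarith) hLφ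
    hLψ hn1 hErr hP hψ hfin
  have hd1 : dist z c < 2 * σ := hN4 c hct z hz1
  have hd2 : dist (g^[n] z) c < 2 * σ := hN4 c hct _ hz2
  refine ⟨n, z, ρ, by omega, ?_, hρ0, by linarith, ?_, ?_⟩
  · have := dist_triangle z c b
    linarith
  · have h1 := dist_triangle_right (g^[n] z) z c
    linarith
  · intro i hi0 hin
    have h1 : 2 * ρ < dist (g^[i] z) c := by
      by_contra hcon
      have h4 : cone c ρ 3 (g^[i] z) = 1 := cone_eq_one hρ0 (by linarith)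
      have h5 := hz3 i hi0 hin
      linarith
    have h4 := dist_triangle (g^[i] z) z c
    linarith

end Pool.Agent.N813.EM
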