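import Pool.Agent.N813.EM.Basic

/-!
# Project EM: statements of the parts
-/

set_option autoImplicit false

open MeasureTheory Filter Set Metric
open scoped Topology

universe v

noncomputable section

namespace Pool.Agent.N813.EM

/-- NET: Lipschitz partitions of unity. -/
def S_NET : Prop :=
  ∀ (B : Type v) [MetricSpace B], FinDim B → ∃ (C : ℝ) (D : ℕ), 1 ≤ C ∧
    ∀ s : ℝ, 0 < s → s ≤ 1 → ∃ (t : Finset B) (φ : B → B → ℝ), Net B C D s t φ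

/-- M32: mixing of order three implies mixing of order two. -/
def S_M32 : Prop :=
  ∀ (B : Type v) [MetricSpace B] [MeasurableSpace B] [BorelSpace B] (μ : Measure B)
    [IsProbabilityMeasure μ] (g : B → B), Continuous g → ExpMix g μ →
    ∃ (C κ β : ℝ) (q : ℕ), 1 ≤ C ∧ 0 < κ ∧ 0 < β ∧ β ≤ 1 ∧ M2 g μ C κ β q ∧ M3 g μ C κ β q

/-- R1: the measure of the set of returns. -/
def S_R1 : Prop :=
  ∀ (B : Type v) [MetricSpace B] [MeasurableSpace B] [BorelSpace B] (μ : Measure B)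
    [IsProbabilityMeasure μ] (g : B → B), Continuous g → FinDim B →
    ∀ (C κ β : ℝ) (q : ℕ), 1 ≤ C → M2 g μ C κ β q →
    ∀ (C₀ δ : ℝ), 0 < δ → (∀ (b : B) (s : ℝ), 0 < s → μ.real (closedBall b s) ≤ C₀ * s ^ δ) →
    ∃ (C₁ : ℝ) (P : ℕ), 0 < C₁ ∧ ∀ (m : ℕ) (s : ℝ), 0 < s → s ≤ 1 →
      ret g μ m s ≤ C₁ * (s ^ δ + (1 / s) ^ P * Real.exp (-(κ * (m : ℝ) ^ β)))

/-- R23: early returns have small total measure. -/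
def S_R23 : Prop :=
  ∀ (B : Type v) [MetricSpace B] [MeasurableSpace B] [BorelSpace B] (μ : Measure B)
    [IsProbabilityMeasure μ] (g : B → B) (Λ : ℝ), (∀ x y, dist (g x) (g y) ≤ Λ * dist x y) →
    ∀ (κ β C₁ δ : ℝ) (P : ℕ), 0 < κ → 0 < β → β ≤ 1 → 0 < δ → 0 < C₁ →
    (∀ (m : ℕ) (s : ℝ), 0 < s → s ≤ 1 →
      ret g μ m s ≤ C₁ * (s ^ δ + (1 / s) ^ P * Real.exp (-(κ * (m : ℝ) ^ β)))) →
    ∀ Q ε : ℝ, 0 < Q → 0 < ε → ∃ s₀ : ℝ, 0 < s₀ ∧ ∀ (s : ℝ) (G : ℕ), 0 < s → s ≤ s₀ →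
      κ * (G : ℝ) ^ β ≤ Q * Real.log (1 / s) → ∑ m ∈ Finset.Icc 1 G, ret g μ m s ≤ ε

/-- CELL: choice of the cell. -/
def S_CELL : Prop :=
  ∀ (B : Type v) [MetricSpace B] [MeasurableSpace B] [BorelSpace B] (μ : Measure B)
    [IsProbabilityMeasure μ] (g g' : B → B), Continuous g → Continuous g' →
    (∀ x, g' (g x) = x) → MeasurePreserving g μ μ →
    ∀ (C : ℝ) (D : ℕ) (σ ρ : ℝ) (t : Finset B) (φ : B → B → ℝ), 1 ≤ C → 0 < σ → 0 < ρ →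
      2 * σ ≤ ρ → Net B C D σ t φ →
    ∀ (b : B) (η m₀ : ℝ) (G : ℕ), 0 < m₀ → m₀ ≤ μ.real (ball b η) →
      ∑ m ∈ Finset.Icc 1 G, ret g μ m (4 * ρ) ≤ m₀ / 32 →
      ∃ c ∈ t, dist c b < η + 2 * σ ∧ m₀ / (4 * (C * (1 / σ) ^ D)) ≤ ∫ x, φ c x ∂μ ∧
        ∑ i ∈ Finset.Icc 1 G, (∫ x, φ c x * cone c ρ 3 (g^[i] x) ∂μ +
          ∫ x, φ c x * cone c ρ 3 (g'^[i] x) ∂μ) ≤ (∫ x, φ c x ∂μ) / 8

/-- MID: the main estimate. -/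
def S_MID : Prop :=
  ∀ (B : Type v) [MetricSpace B] [MeasurableSpace B] [BorelSpace B] (μ : Measure B)
    [IsProbabilityMeasure μ] (g g' : B → B) (Λ : ℝ), 1 ≤ Λ →
    (∀ x y, dist (g x) (g y) ≤ Λ * dist x y) → (∀ x y, dist (g' x) (g' y) ≤ Λ * dist x y) →
    (∀ x, g' (g x) = x) → MeasurePreserving g μ μ →
    ∀ (C κ β : ℝ) (q : ℕ), 1 ≤ C → 0 < κ → 0 < β → M2 g μ C κ β q → M3 g μ C κ β q →
    ∀ (L : ℝ) (φ ψ : B → ℝ) (n G : ℕ) (E : ℝ), 1 ≤ L → Obs L φ → Obs L ψ → 1 ≤ n →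
      C * (2 * L * Λ ^ G) ^ q * Real.exp (-(κ * (n : ℝ) ^ β)) +
        C * L ^ q * Real.exp (-(κ * ((G : ℝ) + 1) ^ β)) ≤ E →
      ∑ i ∈ Finset.Icc 1 G, (∫ x, φ x * ψ (g^[i] x) ∂μ + ∫ x, φ x * ψ (g'^[i] x) ∂μ) ≤
        (∫ x, φ x ∂μ) / 8 →
      n * (∫ x, ψ x ∂μ) ≤ 1 / 8 →
      (n + 1) * E < (∫ x, φ x ∂μ) ^ 2 / 2 →
      ∃ z, φ z ≠ 0 ∧ φ (g^[n] z) ≠ 0 ∧ ∀ i, 0 < i → i < n → ψ (g^[i] z) < 1

/-- ASY: choice of the scales. -/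
def S_ASY : Prop :=
  ∀ (κ β lam δ ε E : ℝ) (q N₀ : ℕ), 0 < κ → 0 < β → β ≤ 1 → 0 ≤ lam → 0 < δ → 0 < ε → 0 < E →
    ∃ (n G : ℕ) (X : ℝ), N₀ ≤ n ∧ 1 / ε ≤ X ∧ 1 ≤ X ∧ (n + 1) / X ^ δ ≤ ε ∧
      κ * (G : ℝ) ^ β ≤ E * Real.log X ∧ E * Real.log X ≤ κ * ((G : ℝ) + 1) ^ β ∧
      q * lam * G + E * Real.log X ≤ κ * (n : ℝ) ^ β

end Pool.Agent.N813.EM
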